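import Pool.Agent.ANO3.Cnt.Close

/-!
# ANO3, module Cnt: the orbits are asymptotic to periodic orbits (package CNT-ASYM)

`near_per`.  PROOF.  Let `δ` be the constant of `closing` for `ε`.  Suppose that the set `A` of the
`n` such that no `p ∈ Per D T` has `dist ((T ^ n) x) p ≤ ε` is infinite.  Choose `a_n ∈ D` with
`y_n = a_n ((T ^ n) x) ∈ K`.  Since `K` is compact there are `m < m'` in `A` with
`dist y_m' y_m ≤ δ` (`A` is infinite: a strictly monotone sequence in `A`, a convergent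
subsequence of the `y`'s, Cauchy).  With `l = m' - m`, `b ∈ D`,
`(T ^ l) (a_m⁻¹ y) = b ((T ^ l) y)` (`Norm.zpow`) we get `y_m' = a_m' ((T ^ l) ((T ^ m) x)) =
(a_m' * b) ((T ^ l) y_m)`.  By `closing` there is `c` with `(a_m' * b) ((T ^ l) c) = c` and
`dist c y_m ≤ ε` (`j = 0`).  Then `c ∈ Per D T`, `p = a_m⁻¹ c ∈ Per D T` (`per_smul`) and
`dist ((T ^ m) x) p = dist y_m c ≤ ε`: contradiction to `m ∈ A`.

`exists_asym`.  PROOF.  Let `ε₁ ≤ ε`, `0 < ε₁ < e / 2` such that `dist u v ≤ ε₁` implies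
`dist (T u) (T v) < e / 2` (`hu`).  Let `n₀` be as in `near_per` for `ε₁` and choose, for `n ≥ n₀`,
`p_n ∈ Per D T` with `dist ((T ^ n) x) p_n ≤ ε₁`.  Then `dist (T p_n) p_(n+1) ≤
dist (T p_n) (T ((T ^ n) x)) + dist ((T ^ (n+1)) x) p_(n+1) < e`, so `T p_n = p_(n+1)` (`hsep`,
`per_zpow` with `i = 1`).  So `p_(n₀+j) = (T ^ j) p_n₀`, and `p = (T ^ (-n₀)) p_n₀` (`per_zpow`)
has `(T ^ n) p = p_n` for `n ≥ n₀`.
-/

set_option autoImplicit false

open Set Filter Topology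

namespace Pool.Agent.ANO3.Cnt

open Pool.Agent.ANO.Dyn

variable {X : Type} [MetricSpace X] {D : Subgroup (Equiv.Perm X)} {T : X ≃ₜ X}

private theorem npow_Asym (h : Norm D T) (l : ℕ) {a : Equiv.Perm X} (ha : a ∈ D) :
    ∃ b ∈ D, ∀ y, (T ^ l) (a y) = b ((T ^ l) y) := by
  obtain ⟨b, hb, hb'⟩ := h.zpow (l : ℤ) a ha
  refine ⟨b, hb, fun y => ?_⟩
  have := hb' y
  rwa [zpow_natCast] at this

private theorem inv_app_Asym (a : Equiv.Perm X) (y : X) : a⁻¹ (a y) = y := a.symm_apply_apply y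

private theorem app_inv_Asym (a : Equiv.Perm X) (y : X) : a (a⁻¹ y) = y := a.apply_symm_apply y

private theorem add_Asym (T : X ≃ₜ X) (m n : ℕ) (y : X) :
    (T ^ m) ((T ^ n) y) = (T ^ (m + n)) y := by
  rw [pow_add]
  rfl

theorem near_per (h : Norm D T) (he : Expansive T) (hs : Shadowing T) {K : Set X}
    (hK : IsCompact K) {x : X} (hx : ∀ n : ℕ, ∃ a ∈ D, a ((T ^ n) x) ∈ K) {ε : ℝ} (hε : 0 < ε) :
    ∃ n₀ : ℕ, ∀ n ≥ n₀, ∃ p ∈ Per D T, dist ((T ^ n) x) p ≤ ε := by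
  by_contra hcon
  have hf : ∃ᶠ n in atTop, ∀ q ∈ Per D T, ε < dist ((T ^ n) x) q := by
    rw [frequently_atTop]
    intro N
    by_contra hno
    apply hcon
    refine ⟨N, fun n hn => ?_⟩
    by_contra hq
    apply hno
    refine ⟨n, hn, fun q hqP => ?_⟩
    by_contra hlt
    exact hq ⟨q, hqP, not_lt.1 hlt⟩
  obtain ⟨φ, hφ, hφ'⟩ := extraction_of_frequently_atTop hf
  choose z hzD hz using fun n => hx (φ n)
  obtain ⟨a, ha, ψ, hψ, hlim⟩ := hK.tendsto_subseq hz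
  obtain ⟨δ, hδ, hcl⟩ := closing h he hs hε
  have hC := hlim.cauchySeq
  rw [Metric.cauchySeq_iff] at hC
  obtain ⟨N, hN⟩ := hC δ hδ
  have h1 := hN (N + 1) (by omega) N le_rfl
  simp only [Function.comp_apply] at h1
  have hij : φ (ψ N) < φ (ψ (N + 1)) := hφ (hψ (Nat.lt_succ_self N))
  generalize ψ N = i at h1 hij
  generalize ψ (N + 1) = j at h1 hij
  obtain ⟨b, hb, hb'⟩ := npow_Asym h (φ j - φ i) (D.inv_mem (hzD i))
  have hy : (z j * b) ((T ^ (φ j - φ i)) (z i ((T ^ φ i) x))) = z j ((T ^ φ j) x) := by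
    rw [Equiv.Perm.mul_apply, ← hb', inv_app_Asym, add_Asym,
      Nat.sub_add_cancel hij.le]
  obtain ⟨c, hc1, hc2⟩ := hcl (z j * b) (D.mul_mem (hzD j) hb) (φ j - φ i)
    (z i ((T ^ φ i) x)) (by omega) (by rw [hy]; exact h1.le)
  have hcP : c ∈ Per D T := ⟨φ j - φ i, by omega, z j * b, D.mul_mem (hzD j) hb, hc1⟩
  have hq := per_smul h hcP (D.inv_mem (hzD i))
  have hge := hφ' i _ hq
  have e : dist ((T ^ φ i) x) ((z i)⁻¹ c) = dist (z i ((T ^ φ i) x)) c := by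
    rw [← h.iso (z i) (hzD i), app_inv_Asym]
  have h0 := hc2 0 (by omega)
  rw [pow_zero] at h0
  have h0' : dist c (z i ((T ^ φ i) x)) ≤ ε := h0
  rw [e, dist_comm] at hge
  linarith

theorem exists_asym (h : Norm D T) (he : Expansive T) (hs : Shadowing T)
    (hu : UniformContinuous T) {e : ℝ} (he0 : 0 < e)
    (hsep : ∀ p ∈ Per D T, ∀ p' ∈ Per D T, dist p p' < e → p = p') {K : Set X}
    (hK : IsCompact K) {x : X} (hx : ∀ n : ℕ, ∃ a ∈ D, a ((T ^ n) x) ∈ K) {ε : ℝ} (hε : 0 < ε) :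
    ∃ p ∈ Per D T, ∃ n₀ : ℕ, ∀ n ≥ n₀, dist ((T ^ n) x) ((T ^ n) p) ≤ ε := by
  obtain ⟨η₀, hη₀, hu'⟩ := Metric.uniformContinuous_iff.1 hu (e / 2) (by positivity)
  set ε₁ : ℝ := min ε (min (η₀ / 2) (e / 4)) with hε₁
  have hε₁0 : 0 < ε₁ := lt_min hε (lt_min (by positivity) (by positivity))
  have hε₁a : ε₁ ≤ ε := min_le_left _ _
  have hε₁b : ε₁ < η₀ := by
    have : ε₁ ≤ η₀ / 2 := (min_le_right _ _).trans (min_le_left _ _)
    linarith
  have hε₁c : ε₁ < e / 2 := by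
    have : ε₁ ≤ e / 4 := (min_le_right _ _).trans (min_le_right _ _)
    linarith
  obtain ⟨N, hN⟩ := near_per h he hs hK hx hε₁0
  choose q hq hqd using fun n : ℕ => hN (N + n) (by omega)
  have hstep : ∀ n, T (q n) = q (n + 1) := by
    intro n
    have hTq : T (q n) ∈ Per D T := by
      have := per_zpow h (hq n) 1
      rwa [zpow_one] at this
    apply hsep _ hTq _ (hq (n + 1))
    have h1 : dist (T ((T ^ (N + n)) x)) (T (q n)) < e / 2 := hu' ((hqd n).trans_lt hε₁b)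
    have h2 : dist ((T ^ (N + (n + 1))) x) (q (n + 1)) < e / 2 := (hqd (n + 1)).trans_lt hε₁c
    have h3 : (T ^ (N + (n + 1))) x = T ((T ^ (N + n)) x) := by
      have := add_Asym T 1 (N + n) x
      rw [pow_one] at this
      rw [this]
      congr 2
      omega
    rw [h3] at h2
    calc dist (T (q n)) (q (n + 1))
        ≤ dist (T (q n)) (T ((T ^ (N + n)) x)) + dist (T ((T ^ (N + n)) x)) (q (n + 1)) :=
          dist_triangle _ _ _
      _ < e := by
          rw [dist_comm (T (q n))]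
          linarith
  have hiter : ∀ n, (T ^ n) (q 0) = q n := by
    intro n
    induction n with
    | zero => rfl
    | succ n ih =>
      rw [← hstep n, ← ih]
      have := add_Asym T 1 n (q 0)
      rw [pow_one] at this
      rw [this, add_comm]
  have hp : (T ^ (-(N : ℤ))) (q 0) ∈ Per D T := per_zpow h (hq 0) _
  have hpq : (T ^ N) ((T ^ (-(N : ℤ))) (q 0)) = q 0 := by
    have h1 : (T ^ N) ((T ^ (-(N : ℤ))) (q 0)) = (T ^ (N : ℤ) * T ^ (-(N : ℤ))) (q 0) := by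
      rw [zpow_natCast]
      rfl
    rw [h1, ← zpow_add, add_neg_cancel, zpow_zero]
    rfl
  refine ⟨_, hp, N, fun n hn => ?_⟩
  have hk : N + (n - N) = n := by omega
  have hqn : (T ^ n) ((T ^ (-(N : ℤ))) (q 0)) = q (n - N) := by
    have h1 : (T ^ (n - N)) ((T ^ N) ((T ^ (-(N : ℤ))) (q 0))) = q (n - N) := by
      rw [hpq, hiter]
    rw [add_Asym, Nat.sub_add_cancel hn] at h1
    exact h1
  have hd := hqd (n - N)
  rw [hk] at hd
  rw [hqn]
  exact hd.trans hε₁a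

end Pool.Agent.ANO3.Cnt
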