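import Pool.Agent.ANO3.Cnt.Norm

/-!
# ANO3, module Cnt: the closing lemma and brackets (package CNT-CLOSE)

`closing`.  PROOF.  Let `e > 0` be the constant of `Expansive T`, `ε' = min ε (e / 2)` and `δ` the
constant of `Shadowing T` for `ε'`.  Given `a ∈ D`, `n > 0`, `x`, let `Tp : Equiv.Perm X` be `T` and
`G = a * Tp ^ n` (in the group `Equiv.Perm X`; `(T ^ i) y = (Tp ^ i) y`).  For `q : ℤ` the element
`A_q = Tp ^ (n q) * G ^ (-q)` is in `D` (`Int.induction_on`: `A_0 = 1`,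
`A_(q+1) = (Tp ^ n * A_q * Tp ^ (-n)) * a⁻¹`, `A_(q-1) = Tp ^ (-n) * (A_q * a) * Tp ^ n`, and
`Tp ^ i * b * Tp ^ (-i) ∈ D` for `b ∈ D`, `i : ℤ` by `Norm.zpow`).  Put
`x_i = (Tp ^ i * G ^ (-(i / n))) x` (`i / n` the integer quotient, `n > 0`).
* `dist (T x_i) x_(i+1) ≤ δ`: let `q = i / n`.  If `(i + 1) / n = q` then `T x_i = x_(i+1)`.
  Otherwise `i + 1 = n (q + 1)`, `(i + 1) / n = q + 1`, `T x_i = (A_(q+1) * G) x` and
  `x_(i+1) = A_(q+1) x`, so that the distance is `dist (G x) x ≤ δ`.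
* `B_i = Tp ^ i * G * Tp ^ (-(i + n)) = Tp ^ i * a * Tp ^ (-i) ∈ D`, and `B_i x_(i+n) = x_i`
  (`(i + n) / n = i / n + 1`).
Let `c` be the point which shadows `(x_i)`: `dist ((T ^ i) c) x_i ≤ ε'`.  Then
`(T ^ i) (G c) = B_i ((T ^ (i + n)) c)`, so
`dist ((T ^ i) (G c)) x_i = dist ((T ^ (i + n)) c) x_(i+n) ≤ ε'` and
`dist ((T ^ i) (G c)) ((T ^ i) c) ≤ 2 ε' ≤ e` for all `i`; so `G c = c`.  For `0 ≤ j < n`:
`x_j = (T ^ j) x`.

`bracket`.  Let `ε' = ε / 2`, `δ₀` the constant of the shadowing property for `ε'` and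
`δ = min δ₀ ε'`.  The sequence `(T ^ j) x` for `j ≥ 0`, `(T ^ j) y` for `j < 0` is a pseudo-orbit
(the only jump is at `j = -1`: `dist (T ((T ^ (-1)) y)) x = dist y x`).  Let `z` be the point which
shadows it.  `n = 0` for `y`: `dist z y ≤ dist z x + dist x y ≤ ε`.
-/

set_option autoImplicit false

open Set Filter Topology

namespace Pool.Agent.ANO3.Cnt

open Pool.Agent.ANO.Dyn

variable {X : Type} [MetricSpace X] {D : Subgroup (Equiv.Perm X)} {T : X ≃ₜ X}

/-- The permutation of a homeomorphism. -/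
private def toPermClose : (X ≃ₜ X) →* Equiv.Perm X where
  toFun := Homeomorph.toEquiv
  map_one' := rfl
  map_mul' := fun _ _ => rfl

private theorem zpow_apply_Close (i : ℤ) (x : X) :
    (T ^ i) x = (toPermClose T ^ i) x := by
  rw [← map_zpow]
  rfl

private theorem conj_Close (h : Norm D T) {b : Equiv.Perm X} (hb : b ∈ D) (i : ℤ) :
    toPermClose T ^ i * b * toPermClose T ^ (-i) ∈ D := by
  obtain ⟨a', ha', H⟩ := h.zpow i b hb
  have e : toPermClose T ^ i * b * toPermClose T ^ (-i) = a' := by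
    ext x
    change (toPermClose T ^ i) (b ((toPermClose T ^ (-i)) x)) = a' x
    rw [← zpow_apply_Close, H, zpow_apply_Close]
    congr 1
    change (toPermClose T ^ i * toPermClose T ^ (-i)) x = x
    rw [← zpow_add, add_neg_cancel, zpow_zero]
    rfl
  rw [e]
  exact ha'

private theorem mem_A_Close (h : Norm D T) {a G : Equiv.Perm X} (ha : a ∈ D) {n : ℤ}
    (hG : G = a * toPermClose T ^ n) (q : ℤ) : toPermClose T ^ (n * q) * G ^ (-q) ∈ D := by
  have hG' : G⁻¹ = toPermClose T ^ (-n) * a⁻¹ := by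
    rw [hG, mul_inv_rev, zpow_neg]
  induction q using Int.induction_on with
  | zero =>
    have e : toPermClose T ^ (n * 0) * G ^ (-(0 : ℤ)) = 1 := by
      rw [mul_zero, neg_zero, zpow_zero, zpow_zero, one_mul]
    rw [e]
    exact D.one_mem
  | succ k ih =>
    have e : toPermClose T ^ (n * ((k : ℤ) + 1)) * G ^ (-((k : ℤ) + 1)) =
        (toPermClose T ^ n * (toPermClose T ^ (n * (k : ℤ)) * G ^ (-(k : ℤ))) *
          toPermClose T ^ (-n)) * a⁻¹ := by
      have e1 : G ^ (-((k : ℤ) + 1)) = G ^ (-(k : ℤ)) * G⁻¹ := by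
        rw [neg_add, zpow_add, zpow_neg_one]
      have e2 : toPermClose T ^ (n * ((k : ℤ) + 1)) =
          toPermClose T ^ n * toPermClose T ^ (n * (k : ℤ)) := by
        rw [← zpow_add]
        congr 1
        ring
      rw [e1, e2, hG']
      simp only [mul_assoc]
    rw [e]
    exact D.mul_mem (conj_Close h ih n) (D.inv_mem ha)
  | pred k ih =>
    have e : toPermClose T ^ (n * (-(k : ℤ) - 1)) * G ^ (-(-(k : ℤ) - 1)) =
        toPermClose T ^ (-n) * ((toPermClose T ^ (n * (-(k : ℤ))) * G ^ (-(-(k : ℤ)))) * a) *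
          toPermClose T ^ (-(-n)) := by
      have e1 : G ^ (-(-(k : ℤ) - 1)) = G ^ (-(-(k : ℤ))) * G := by
        rw [← zpow_add_one]
        congr 1
        ring
      have e2 : toPermClose T ^ (n * (-(k : ℤ) - 1)) =
          toPermClose T ^ (-n) * toPermClose T ^ (n * (-(k : ℤ))) := by
        rw [← zpow_add]
        congr 1
        ring
      rw [e1, e2, neg_neg n]
      nth_rewrite 2 [hG]
      simp only [mul_assoc]
    rw [e]
    exact conj_Close h (D.mul_mem ih ha) (-n)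

/-- The closing lemma for a group which is normalized by `T`. -/
theorem closing (h : Norm D T) (he : Expansive T) (hs : Shadowing T) {ε : ℝ} (hε : 0 < ε) :
    ∃ δ > 0, ∀ a ∈ D, ∀ (n : ℕ) (x : X), 0 < n → dist (a ((T ^ n) x)) x ≤ δ →
      ∃ c, a ((T ^ n) c) = c ∧ ∀ j : ℕ, j < n → dist ((T ^ j) c) ((T ^ j) x) ≤ ε := by
  obtain ⟨e, he0, he⟩ := he
  obtain ⟨δ, hδ, hs⟩ := hs (min ε (e / 2)) (lt_min hε (by linarith))
  refine ⟨δ, hδ, fun a ha n x hn hx => ?_⟩
  have hn' : (0 : ℤ) < n := by exact_mod_cast hn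
  obtain ⟨P, hP⟩ : ∃ P : Equiv.Perm X, P = toPermClose T := ⟨_, rfl⟩
  obtain ⟨G, hG⟩ : ∃ G : Equiv.Perm X, G = a * P ^ (n : ℤ) := ⟨_, rfl⟩
  have hz : ∀ (i : ℤ) (y : X), (T ^ i) y = (P ^ i) y := fun i y => by
    rw [hP]
    exact zpow_apply_Close i y
  have hA : ∀ q : ℤ, P ^ ((n : ℤ) * q) * G ^ (-q) ∈ D := fun q => by
    rw [hP] at hG ⊢
    exact mem_A_Close h ha hG q
  have hGx : ∀ y, G y = a ((T ^ n) y) := fun y => by
    have h1 : (T ^ n) y = (P ^ (n : ℤ)) y := by rw [← hz, zpow_natCast]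
    rw [h1, hG]
    rfl
  obtain ⟨xs, hxs⟩ : ∃ xs : ℤ → X, ∀ i, xs i = (P ^ i * G ^ (-(i / (n : ℤ)))) x :=
    ⟨_, fun _ => rfl⟩
  have hrep : ∀ i : ℤ, ∃ q r : ℤ, 0 ≤ r ∧ r < n ∧ i = r + n * q := fun i =>
    ⟨i / n, i % n, Int.emod_nonneg _ hn'.ne', Int.emod_lt_of_pos _ hn',
      (Int.emod_add_mul_ediv i n).symm⟩
  have hdiv : ∀ q r : ℤ, 0 ≤ r → r < n → (r + n * q) / (n : ℤ) = q := by
    intro q r h0 h1
    exact ((Int.ediv_emod_unique (a := r + n * q) (q := q) (r := r) hn').mpr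
      ⟨rfl, h0, h1⟩).1
  have hT : ∀ (i : ℤ) (g : Equiv.Perm X), T ((P ^ i * g) x) = (P ^ (i + 1) * g) x := by
    intro i g
    have h1 : ∀ y, T y = P y := fun y => by rw [hP]; rfl
    rw [h1]
    change (P * (P ^ i * g)) x = (P ^ (i + 1) * g) x
    rw [add_comm i 1, zpow_one_add, mul_assoc]
  have step : ∀ i, dist (T (xs i)) (xs (i + 1)) ≤ δ := by
    intro i
    obtain ⟨q, r, h0, h1, rfl⟩ := hrep i
    rw [hxs, hxs, hdiv q r h0 h1, hT]
    rcases lt_or_ge (r + 1) (n : ℤ) with h3 | h3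
    · have h4 : r + n * q + 1 = (r + 1) + n * q := by ring
      rw [h4, hdiv q (r + 1) (by linarith) h3, dist_self]
      exact hδ.le
    · have h4 : r + 1 = n := le_antisymm (by omega) h3
      have h5 : r + n * q + 1 = n * (q + 1) := by
        rw [← h4]
        ring
      have h6 : (n : ℤ) * (q + 1) / n = q + 1 := Int.mul_ediv_cancel_left _ hn'.ne'
      rw [h5, h6]
      have h7 : P ^ ((n : ℤ) * (q + 1)) * G ^ (-q) =
          (P ^ ((n : ℤ) * (q + 1)) * G ^ (-(q + 1))) * G := by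
        rw [mul_assoc, ← zpow_add_one]
        congr 2
        ring
      rw [h7]
      change dist ((P ^ ((n : ℤ) * (q + 1)) * G ^ (-(q + 1))) (G x)) _ ≤ δ
      rw [h.iso _ (hA (q + 1)), hGx]
      exact hx
  obtain ⟨c, hc⟩ := hs xs step
  have hB : ∀ i : ℤ, P ^ i * G * P ^ (-(i + n)) ∈ D := by
    intro i
    have h1 : P ^ i * G * P ^ (-(i + n)) = P ^ i * a * P ^ (-i) := by
      rw [hG, mul_assoc, mul_assoc, mul_assoc, ← zpow_add]
      congr 3
      ring
    rw [h1, hP]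
    exact conj_Close h ha i
  have hBx : ∀ i : ℤ, (P ^ i * G * P ^ (-(i + n))) (xs (i + n)) = xs i := by
    intro i
    rw [hxs, hxs]
    have h1 : (i + n) / (n : ℤ) = i / n + 1 := by
      have h2 := Int.add_mul_ediv_right i 1 hn'.ne'
      rwa [one_mul] at h2
    rw [h1]
    change (P ^ i * G * P ^ (-(i + n)) * (P ^ (i + n) * G ^ (-(i / (n : ℤ) + 1)))) x = _
    have h2 : P ^ i * G * P ^ (-(i + n)) * (P ^ (i + n) * G ^ (-(i / (n : ℤ) + 1))) =
        P ^ i * G ^ (-(i / (n : ℤ))) := by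
      rw [mul_assoc, ← mul_assoc (P ^ (-(i + n))), ← zpow_add, neg_add_cancel, zpow_zero,
        one_mul, mul_assoc, ← zpow_one_add]
      congr 2
      ring
    rw [h2]
  have hGc : G c = c := by
    refine he _ _ fun j => ?_
    have h1 : (T ^ j) (G c) = (P ^ j * G * P ^ (-(j + n))) ((T ^ (j + n)) c) := by
      rw [hz, hz]
      change (P ^ j * G) c = (P ^ j * G * P ^ (-(j + n)) * P ^ (j + n)) c
      rw [mul_assoc (P ^ j * G), ← zpow_add, neg_add_cancel, zpow_zero, mul_one]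
    have h2 : dist ((T ^ j) (G c)) (xs j) ≤ e / 2 := by
      rw [h1, ← hBx j, h.iso _ (hB j)]
      exact (hc (j + n)).trans (min_le_right _ _)
    have h3 := (hc j).trans (min_le_right _ _)
    calc dist ((T ^ j) (G c)) ((T ^ j) c)
        ≤ dist ((T ^ j) (G c)) (xs j) + dist ((T ^ j) c) (xs j) := dist_triangle_right _ _ _
      _ ≤ e / 2 + e / 2 := add_le_add h2 h3
      _ = e := by ring
  refine ⟨c, by rw [← hGx]; exact hGc, fun j hj => ?_⟩
  have h1 := (hc (j : ℤ)).trans (min_le_left _ _)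
  have h2 : xs (j : ℤ) = (T ^ j) x := by
    rw [hxs, Int.ediv_eq_zero_of_lt (by positivity) (by exact_mod_cast hj), neg_zero, zpow_zero,
      mul_one, ← hz, zpow_natCast]
  rw [h2, zpow_natCast] at h1
  exact h1

/-- The bracket of two points `x`, `y`: a point whose future is close to that of `x` and whose past
is close to that of `y`. -/
theorem bracket (hs : Shadowing T) {ε : ℝ} (hε : 0 < ε) :
    ∃ δ > 0, ∀ x y : X, dist x y ≤ δ → ∃ z, (∀ n : ℕ, dist ((T ^ n) z) ((T ^ n) x) ≤ ε) ∧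
      ∀ n : ℕ, dist ((T ^ n).symm z) ((T ^ n).symm y) ≤ ε := by
  obtain ⟨δ, hδ, hs⟩ := hs (ε / 2) (by linarith)
  refine ⟨min δ (ε / 2), lt_min hδ (by linarith), fun x y hxy => ?_⟩
  obtain ⟨xs, hxs⟩ : ∃ xs : ℤ → X, ∀ j, xs j = if 0 ≤ j then (T ^ j) x else (T ^ j) y :=
    ⟨_, fun _ => rfl⟩
  have hT : ∀ (j : ℤ) (u : X), T ((T ^ j) u) = (T ^ (j + 1)) u := by
    intro j u
    rw [add_comm j 1, zpow_one_add]
    rfl
  obtain ⟨z, hz⟩ := hs xs (fun j => by
    rw [hxs, hxs]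
    rcases lt_trichotomy j (-1) with h1 | h1 | h1
    · rw [if_neg (by omega), if_neg (by omega), hT, dist_self]
      exact hδ.le
    · subst h1
      rw [if_neg (by omega), if_pos (by omega), hT, neg_add_cancel, zpow_zero]
      change dist y x ≤ δ
      rw [dist_comm]
      exact hxy.trans (min_le_left _ _)
    · rw [if_pos (by omega), if_pos (by omega), hT, dist_self]
      exact hδ.le)
  have hz0 : ∀ n : ℕ, dist ((T ^ n) z) ((T ^ n) x) ≤ ε / 2 := by
    intro n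
    have h1 := hz (n : ℤ)
    rw [hxs, if_pos (by positivity), zpow_natCast] at h1
    exact h1
  refine ⟨z, fun n => (hz0 n).trans (by linarith), fun n => ?_⟩
  rcases Nat.eq_zero_or_pos n with rfl | hn
  · change dist z y ≤ ε
    have h1 : dist z x ≤ ε / 2 := hz0 0
    have h2 := hxy.trans (min_le_right _ _)
    linarith [dist_triangle z x y]
  · have h1 := hz (-(n : ℤ))
    rw [hxs, if_neg (by omega), zpow_neg, zpow_natCast] at h1
    have h2 : dist ((T ^ n).symm z) ((T ^ n).symm y) ≤ ε / 2 := h1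
    linarith

end Pool.Agent.ANO3.Cnt
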