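import Pool.Agent.ANO3.Cnt.Norm

/-!
# ANO3, module Cnt: the periodic points are uniformly discrete (package CNT-SEP)

`exists_sep`.  PROOF.  By `hfin` there is a finite set `B ⊆ Per D T` such that every `p ∈ Per D T`
is `a c` for some `a ∈ D`, `c ∈ B` (choose one point in each of the finitely many orbits).  For
`c, c' ∈ B` the set `{a ∈ D | dist (a c') c ≤ 1}` is finite (`hpd`), so there is `e(c, c') > 0` such
that `a ∈ D` and `dist (a c') c < e(c, c')` imply `a c' = c` (the minimum of `1` and the finitely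
many positive numbers `dist (a c') c`).  Let `e` be the minimum over `B × B` (and `1`).  If
`p = a c`, `p' = a' c'` and `dist p p' < e` then `dist ((a⁻¹ * a') c') c < e`, so
`(a⁻¹ * a') c' = c` and `p' = p`.

`countable_of_sep`.  A subset `A` of a second countable metric space with
`dist x y < e → x = y` for `x, y ∈ A` is countable (discrete topology on the subtype,
`countable_of_discreteTopology` or similar; see the proof of `countable_per` in
`Pool/Agent/ANO2/Dim/Limit.lean`).
-/

set_option autoImplicit false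

open Set Filter Topology

namespace Pool.Agent.ANO3.Cnt

variable {X : Type} [MetricSpace X] {D : Subgroup (Equiv.Perm X)} {T : X ≃ₜ X}

theorem exists_sep (h : Norm D T)
    (hfin : ((fun q => MulAction.orbit D q) '' Per D T).Finite)
    (hpd : ∀ c c' : X, {a : Equiv.Perm X | a ∈ D ∧ dist (a c') c ≤ 1}.Finite) :
    ∃ e > 0, ∀ p ∈ Per D T, ∀ p' ∈ Per D T, dist p p' < e → p = p' := by
  obtain ⟨B, -, hbij⟩ := Set.exists_subset_bijOn (Per D T) (fun q => MulAction.orbit D q)
  have hBf : B.Finite := hbij.finite_iff_finite.2 hfin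
  have hrep : ∀ p ∈ Per D T, ∃ c ∈ B, ∃ a ∈ D, p = a c := by
    intro p hp
    obtain ⟨c, hc, hcp⟩ := hbij.surjOn (mem_image_of_mem _ hp)
    have h1 : p ∈ MulAction.orbit D c := by
      have h2 : MulAction.orbit D c = MulAction.orbit D p := hcp
      rw [h2]
      exact MulAction.mem_orbit_self p
    obtain ⟨a, ha⟩ := h1
    exact ⟨c, hc, a, a.2, ha.symm⟩
  have key : ∀ᶠ e : ℝ in 𝓝[>] 0, ∀ c ∈ B, ∀ c' ∈ B, ∀ a ∈ D, dist (a c') c < e → a c' = c := by
    rw [Filter.eventually_all_finite hBf]
    intro c _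
    rw [Filter.eventually_all_finite hBf]
    intro c' _
    have h1 : ∀ᶠ e : ℝ in 𝓝[>] 0, ∀ a ∈ {a : Equiv.Perm X | a ∈ D ∧ dist (a c') c ≤ 1},
        dist (a c') c < e → a c' = c := by
      rw [Filter.eventually_all_finite (hpd c c')]
      intro a _
      by_cases hac : a c' = c
      · exact Eventually.of_forall fun _ _ => hac
      · have h3 : 0 < dist (a c') c := dist_pos.2 hac
        filter_upwards [Ioo_mem_nhdsGT h3] with e he hlt
        exact absurd hlt (not_lt.2 he.2.le)
    filter_upwards [h1, Ioo_mem_nhdsGT (one_pos : (0 : ℝ) < 1)] with e he1 he2 a ha hlt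
    exact he1 a ⟨ha, (hlt.trans he2.2).le⟩ hlt
  obtain ⟨e, he, he0⟩ := (key.and self_mem_nhdsWithin).exists
  refine ⟨e, he0, fun p hp p' hp' hpp => ?_⟩
  obtain ⟨c, hc, a, ha, rfl⟩ := hrep p hp
  obtain ⟨c', hc', a', ha', rfl⟩ := hrep p' hp'
  have h4 : (a⁻¹ * a') c' = c := by
    refine he c hc c' hc' (a⁻¹ * a') (D.mul_mem (D.inv_mem ha) ha') ?_
    rw [← h.iso a ha, dist_comm]
    have h5 : a ((a⁻¹ * a') c') = a' c' := a.apply_symm_apply (a' c')
    rw [h5]
    exact hpp
  rw [← h4]
  exact a.apply_symm_apply (a' c')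

theorem countable_of_sep [SecondCountableTopology X] {A : Set X} {e : ℝ} (he : 0 < e)
    (h : ∀ x ∈ A, ∀ y ∈ A, dist x y < e → x = y) : A.Countable := by
  have h1 : DiscreteTopology A := by
    refine DiscreteTopology.of_forall_le_dist he ?_
    intro x y hxy
    by_contra hlt
    exact hxy (Subtype.ext (h x x.2 y y.2 (not_le.1 hlt)))
  exact (Set.countable_coe_iff).1 (TopologicalSpace.separableSpace_iff_countable.1 inferInstance)

end Pool.Agent.ANO3.Cnt
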