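import Pool.Agent.ANO3.Cnt.Asym
import Pool.Agent.ANO3.Cnt.Sep

/-!
# ANO3, module Cnt: a set which is compact modulo the group is countable (package CNT-COUNT)

`countable_of_cpt`.  PROOF.  `T` and `T.symm` have the same periodic points (`per_symm`), which are
uniformly discrete with a constant `e` (`exists_sep`).  Let `e₁ > 0` be the constant of
`Expansive T` and `ε = e₁ / 4`.  By `exists_asym` for `T` and for `T.symm` (`Norm.symm`,
`expansive_symm`, `shadowing_symm`; `hR` shows that all `(T ^ n) x`, `(T.symm ^ n) x`, `x ∈ R`, are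
in `R`, so `hRK` gives the hypothesis) `R` is contained in the union over `p, p' ∈ Per D T`,
`n₀ : ℕ` of the sets
`A = {x | ∀ n ≥ n₀, dist ((T ^ n) x) ((T ^ n) p) ≤ ε ∧
dist ((T.symm ^ n) x) ((T.symm ^ n) p') ≤ ε}` (take the maximum of the two `n₀`'s).  `Per D T` is
countable (`countable_of_sep`), so it suffices that each `A` is countable.  `T ^ j` is uniformly
continuous for all `j : ℤ` (`hu`, `hu'`, induction), so there is `δ > 0` such that `dist x y < δ`
implies `dist ((T ^ j) x) ((T ^ j) y) ≤ e₁` for all `|j| ≤ n₀`.  If `x, y ∈ A` and `dist x y < δ`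
then this inequality is true for all `j : ℤ` (for `|j| ≥ n₀` the distance is `≤ 2 ε ≤ e₁`,
`zpow_symm`), so `x = y`.  So `countable_of_sep` applies to `A`.

`eq_of_bdd`.  PROOF.  Let `D = ⊥`.  `Norm ⊥ T` is trivial (`a = 1`), `Per ⊥ T ⊆ {q}` by `hq`, so
`hsep` of `exists_asym` is trivial.  Let `ε > 0` and `δ` be the constant of `closing` for `ε`.  By
`near_per` for `T` and `T.symm` with `min (δ / 2) ..` there is `n₀` such that
`dist ((T ^ n) x) q ≤ δ / 2` and `dist ((T.symm ^ n) x) q ≤ δ / 2` for `n ≥ n₀`.  For `n ≥ n₀ + 1`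
let `z = (T ^ (-n)) x`: `dist ((T ^ (2 n)) z) z ≤ δ`, so there is `c` with `(T ^ (2 n)) c = c` and
`dist ((T ^ j) c) ((T ^ j) z) ≤ ε` for `0 ≤ j < 2 n`; `c = q` by `hq`, `(T ^ j) q = q` (by `hq` as
well, since `(T ^ j) q` is a fixed point of `T ^ (2 n)`; or `T q = q`).  So
`dist q ((T ^ i) x) ≤ ε` for all `-n ≤ i < n`, hence for all `i : ℤ`.  With `ε` the constant of
`Expansive T` (and `(T ^ i) q = q`) this gives `x = q`.
-/

set_option autoImplicit false

open Set Filter Topology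

namespace Pool.Agent.ANO3.Cnt

open Pool.Agent.ANO.Dyn

variable {X : Type} [MetricSpace X] {D : Subgroup (Equiv.Perm X)} {T : X ≃ₜ X}

private theorem Count_uc {S : X ≃ₜ X} (hu : UniformContinuous S) (n : ℕ) :
    UniformContinuous (fun x => (S ^ n) x) := by
  induction n with
  | zero => exact uniformContinuous_id
  | succ n ih =>
    have h1 : (fun x => (S ^ (n + 1)) x) = (fun x => (S ^ n) x) ∘ (fun x => S x) := by
      funext x
      rw [pow_succ]
      rfl
    rw [h1]
    exact ih.comp hu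

private theorem Count_add (S : X ≃ₜ X) (a b : ℤ) (x : X) :
    (S ^ (a + b)) x = (S ^ a) ((S ^ b) x) := by
  rw [zpow_add]
  rfl

private theorem Count_unif {S : X ≃ₜ X} (hu : UniformContinuous S) {e : ℝ} (he : 0 < e) (n : ℕ) :
    ∀ᶠ q : X × X in uniformity X, dist ((S ^ n) q.1) ((S ^ n) q.2) < e :=
  (Count_uc hu n) (Metric.dist_mem_uniformity he)

private theorem Count_mem {S : X ≃ₜ X} {R : Set X} (hR : ∀ x ∈ R, S x ∈ R) {x : X}
    (hx : x ∈ R) (n : ℕ) : (S ^ n) x ∈ R := by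
  induction n with
  | zero => exact hx
  | succ n ih =>
    have h1 : (S ^ (n + 1)) x = S ((S ^ n) x) := by
      rw [pow_succ']
      rfl
    rw [h1]
    exact hR _ ih

theorem countable_of_cpt [SecondCountableTopology X] (h : Norm D T) (he : Expansive T)
    (hs : Shadowing T) (hu : UniformContinuous T) (hu' : UniformContinuous T.symm)
    (hfin : ((fun q => MulAction.orbit D q) '' Per D T).Finite)
    (hpd : ∀ c c' : X, {a : Equiv.Perm X | a ∈ D ∧ dist (a c') c ≤ 1}.Finite)
    {R : Set X} (hR : ∀ x ∈ R, T x ∈ R ∧ T.symm x ∈ R) {K : Set X} (hK : IsCompact K)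
    (hRK : ∀ x ∈ R, ∃ a ∈ D, a x ∈ K) : R.Countable := by
  obtain ⟨e, he0, hsep⟩ := exists_sep h hfin hpd
  obtain ⟨e₁, he₁, hexp⟩ := id he
  have hcP : (Per D T).Countable := countable_of_sep he0 hsep
  have hε : 0 < e₁ / 4 := by positivity
  set A : X → X → ℕ → Set X := fun p p' n₀ => {x | ∀ n ≥ n₀,
    dist ((T ^ n) x) ((T ^ n) p) ≤ e₁ / 4 ∧
    dist ((T.symm ^ n) x) ((T.symm ^ n) p') ≤ e₁ / 4} with hA
  have hsub : R ⊆ ⋃ p ∈ Per D T, ⋃ p' ∈ Per D T, ⋃ n₀ : ℕ, A p p' n₀ := by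
    intro x hx
    obtain ⟨p, hp, n₁, h₁⟩ := exists_asym h he hs hu he0 hsep hK (x := x)
      (fun n => hRK _ (Count_mem (fun y hy => (hR y hy).1) hx n)) hε
    obtain ⟨p', hp', n₂, h₂⟩ := exists_asym h.symm (expansive_symm he) (shadowing_symm hu hs)
      hu' he0 (by rw [per_symm h]; exact hsep) hK (x := x)
      (fun n => hRK _ (Count_mem (fun y hy => (hR y hy).2) hx n)) hε
    rw [per_symm h] at hp'
    simp only [mem_iUnion]
    exact ⟨p, hp, p', hp', max n₁ n₂, fun n hn =>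
      ⟨h₁ n (le_trans (le_max_left _ _) hn), h₂ n (le_trans (le_max_right _ _) hn)⟩⟩
  refine Set.Countable.mono hsub ?_
  refine Set.Countable.biUnion hcP fun p _ => ?_
  refine Set.Countable.biUnion hcP fun p' _ => ?_
  refine Set.countable_iUnion fun n₀ => ?_
  have hev : ∀ᶠ q : X × X in uniformity X, ∀ n ∈ Finset.range (n₀ + 1),
      dist ((T ^ n) q.1) ((T ^ n) q.2) < e₁ ∧
      dist ((T.symm ^ n) q.1) ((T.symm ^ n) q.2) < e₁ := by
    rw [Filter.eventually_all_finset]
    intro n _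
    exact (Count_unif hu he₁ n).and (Count_unif hu' he₁ n)
  obtain ⟨δ, hδ, hδ'⟩ := Metric.mem_uniformity_dist.1 hev
  refine countable_of_sep hδ fun x hx y hy hxy => hexp x y fun j => ?_
  have h3 := hδ' hxy
  simp only [mem_ofPred_eq] at h3
  obtain ⟨n, rfl | rfl⟩ := Int.eq_nat_or_neg j
  · rw [zpow_natCast]
    by_cases hn : n ∈ Finset.range (n₀ + 1)
    · exact (h3 n hn).1.le
    · rw [Finset.mem_range] at hn
      have hn' : n ≥ n₀ := by omega
      have h4 := (hx n hn').1
      have h5 := (hy n hn').1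
      have h6 := dist_triangle_right ((T ^ n) x) ((T ^ n) y) ((T ^ n) p)
      linarith
  · rw [← zpow_symm, ← zpow_symm, zpow_natCast]
    by_cases hn : n ∈ Finset.range (n₀ + 1)
    · exact (h3 n hn).2.le
    · rw [Finset.mem_range] at hn
      have hn' : n ≥ n₀ := by omega
      have h4 := (hx n hn').2
      have h5 := (hy n hn').2
      have h6 := dist_triangle_right ((T.symm ^ n) x) ((T.symm ^ n) y) ((T.symm ^ n) p')
      linarith

private theorem Count_bot (S : X ≃ₜ X) : Norm (⊥ : Subgroup (Equiv.Perm X)) S where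
  iso a ha x y := by
    rw [Subgroup.mem_bot] at ha
    rw [ha]
    rfl
  fwd a ha := ⟨1, Subgroup.one_mem _, fun x => by
    rw [Subgroup.mem_bot] at ha
    rw [ha]
    rfl⟩
  bwd a ha := ⟨1, Subgroup.one_mem _, fun x => by
    rw [Subgroup.mem_bot] at ha
    rw [ha]
    rfl⟩

theorem eq_of_bdd (he : Expansive T) (hs : Shadowing T) (hu : UniformContinuous T) {q : X}
    (hq : ∀ m : ℕ, 0 < m → ∀ c, (T ^ m) c = c → c = q) {K : Set X} (hK : IsCompact K) {x : X}
    (hx : ∀ i : ℤ, (T ^ i) x ∈ K) : x = q := by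
  have hN := Count_bot T
  have hper : ∀ p ∈ Per (⊥ : Subgroup (Equiv.Perm X)) T, p = q := by
    rintro p ⟨m, hm, a, ha, hap⟩
    rw [Subgroup.mem_bot] at ha
    rw [ha] at hap
    exact hq m hm p hap
  obtain ⟨e₀, he₀, hexp⟩ := id he
  obtain ⟨δ, hδ, hcl⟩ := closing hN he hs he₀
  obtain ⟨n₁, h₁⟩ := near_per hN he hs hK (x := x) (fun n => ⟨1, Subgroup.one_mem _, by
    have := hx n
    rwa [zpow_natCast] at this⟩) (half_pos hδ)
  obtain ⟨n₂, h₂⟩ := near_per hN.symm (expansive_symm he) (shadowing_symm hu hs) hK (x := x)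
    (fun n => ⟨1, Subgroup.one_mem _, by
      have := hx (-(n : ℤ))
      rw [← zpow_symm, zpow_natCast] at this
      exact this⟩) (half_pos hδ)
  have key : ∀ n : ℕ, n₁ ≤ n → n₂ ≤ n → 0 < n → (T ^ (2 * n)) q = q ∧
      ∀ j : ℕ, j < 2 * n → dist ((T ^ j) q) ((T ^ ((j : ℤ) - n)) x) ≤ e₀ := by
    intro n hn1 hn2 hn
    set z : X := (T ^ (-(n : ℤ))) x with hz
    have hz2 : ∀ j : ℕ, (T ^ j) z = (T ^ ((j : ℤ) - n)) x := by
      intro j
      rw [hz, ← zpow_natCast, ← Count_add, sub_eq_add_neg]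
    obtain ⟨p, hp, hp'⟩ := h₁ n hn1
    obtain ⟨p', hp2, hp2'⟩ := h₂ n hn2
    rw [per_symm hN] at hp2
    rw [hper p hp] at hp'
    rw [hper p' hp2] at hp2'
    have hzz : (T.symm ^ n) x = z := by
      rw [hz, ← zpow_symm, zpow_natCast]
    rw [hzz] at hp2'
    have hTz : (T ^ (2 * n)) z = (T ^ n) x := by
      rw [hz2, ← zpow_natCast]
      congr 2
      push_cast
      ring
    have hd : dist ((1 : Equiv.Perm X) ((T ^ (2 * n)) z)) z ≤ δ := by
      show dist ((T ^ (2 * n)) z) z ≤ δ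
      rw [hTz]
      have := dist_triangle_right ((T ^ n) x) z q
      linarith
    obtain ⟨c, hc, hc'⟩ := hcl 1 (Subgroup.one_mem _) (2 * n) z (by omega) hd
    have hc2 : (T ^ (2 * n)) c = c := hc
    have hcq : c = q := hq (2 * n) (by omega) c hc2
    rw [hcq] at hc2 hc'
    refine ⟨hc2, fun j hj => ?_⟩
    rw [← hz2]
    exact hc' j hj
  have hTq : T q = q := by
    set n := max n₁ n₂ + 1 with hn
    have h3 := (key n (by omega) (by omega) (by omega)).1
    refine hq (2 * n) (by omega) _ ?_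
    have h4 : (T ^ (2 * n)) (T q) = T ((T ^ (2 * n)) q) := by
      show ((T ^ (2 * n)) * T) q = (T * (T ^ (2 * n))) q
      rw [← pow_succ, ← pow_succ']
    rw [h4, h3]
  have hTn : ∀ n : ℕ, (T ^ n) q = q := by
    intro n
    induction n with
    | zero => rfl
    | succ n ih =>
      rw [pow_succ]
      show (T ^ n) (T q) = q
      rw [hTq, ih]
  have hTi : ∀ i : ℤ, (T ^ i) q = q := by
    intro i
    obtain ⟨n, rfl | rfl⟩ := Int.eq_nat_or_neg i
    · rw [zpow_natCast]
      exact hTn n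
    · have h3 := Count_add T (-(n : ℤ)) n q
      rw [zpow_natCast, hTn, neg_add_cancel, zpow_zero] at h3
      exact h3.symm
  refine hexp x q fun i => ?_
  rw [hTi, dist_comm]
  set n := max n₁ n₂ + i.natAbs + 1 with hn
  have hj0 : 0 ≤ i + n := by omega
  obtain ⟨j, hj⟩ := Int.eq_ofNat_of_zero_le hj0
  have h3 := (key n (by omega) (by omega) (by omega)).2 j (by omega)
  rw [hTn] at h3
  have h4 : (j : ℤ) - n = i := by omega
  rw [h4] at h3
  exact h3

end Pool.Agent.ANO3.Cnt
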