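import Pool.Agent.ANO3.Cnt.Typ

/-!
# ANO3, module Cnt: the periodic points of one type are finitely many modulo the group of the type
# (package CNT-FINMOD)

`finite_one` (one surface).  Let `c : ℍ`.  There is a finite set `B` such that for every periodic
`z` with `Eqv z c` there is `γ ∈ Γ` with `Eqv (γ • c) c` and `γ • z ∈ B`.
PROOF.  If `c ∈ U` then `z = c` (`Flat.eq_of_zero`): `B = {c}`, `γ = 1`.  Let `c ∉ U`.  Then
`z ∉ U` (otherwise `c = z` by `Flat.eq_of_zero` applied to `z ∈ U`).  Let `A` be the finite set of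
`N.finite`.  For each `α ∈ A` choose, if possible, a periodic `z_α` with `Eqv z_α c` and
`γ_α ∈ Γ` with `γ_α • z_α = α`; `B` is the set of these `z_α` (finite: the image of a subset of
`A`).  If `z` is periodic, `Eqv z c`, let `γ_z • z = α ∈ A`; then `z_α` exists, and
`γ = γ_α⁻¹ γ_z` has `γ • z = z_α ∈ B`, `Eqv (γ • c) (γ • z)`, i.e. `Eqv (γ • c) z_α`, so
`Eqv (γ • c) c`.

`finite_type` (product).  PROOF.  Let `B i` be the sets of `finite_one` for `κ.1 i`, and
`B = {z | ∀ i, z.1 i ∈ B i}`, a finite subset of `X r 0` (`Set.Finite.pi`, the second component is a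
function on `Fin 0`: `Subsingleton`).  For `z ~ κ` with periodic components choose the `γ i` and
let `a` be the deck transformation with components `γ i` (`Grp.exists_deck`); `a ∈ TypeGrp N κ` and
`a z ∈ B`, so the orbit of `z` is the orbit of an element of `B`.
-/

set_option autoImplicit false

open Set Filter Topology
open scoped UpperHalfPlane MatrixGroups

namespace Pool.Agent.ANO3.Cnt

open Pool.Agent.ANO Pool.Agent.ANO2 Pool.Agent.ANO3.Grp

theorem finite_one {S : SurfaceMap} (N : NormalForm S) (c : ℍ) :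
    ∃ B : Set ℍ, B.Finite ∧ ∀ z, IsPeriodic S z → N.flat.Eqv z c →
      ∃ γ ∈ S.Γ, N.flat.Eqv (γ • c) c ∧ γ • z ∈ B := by
  classical
  have hsymm : ∀ a b, N.flat.Eqv a b → N.flat.Eqv b a := fun a b h =>
    ⟨(N.flat.dual_u.symm b a).trans h.1, (N.flat.dual_s.symm b a).trans h.2⟩
  have htrans : ∀ a b e, N.flat.Eqv a b → N.flat.Eqv b e → N.flat.Eqv a e := by
    intro a b e h h'
    refine ⟨le_antisymm ?_ (N.flat.du_nonneg a e), le_antisymm ?_ (N.flat.ds_nonneg a e)⟩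
    · have h1 := N.flat.dual_u.triangle a b e
      rw [h.1, h'.1] at h1
      linarith
    · have h1 := N.flat.dual_s.triangle a b e
      rw [h.2, h'.2] at h1
      linarith
  have hsmul : ∀ γ ∈ S.Γ, ∀ a b : ℍ, N.flat.Eqv a b → N.flat.Eqv (γ • a) (γ • b) :=
    fun γ hγ a b h => ⟨(N.flat.dual_u.inv γ hγ a b).trans h.1,
      (N.flat.dual_s.inv γ hγ a b).trans h.2⟩
  by_cases hc : c ∈ N.flat.U
  · refine ⟨{c}, Set.finite_singleton c, fun z _ hz => ⟨1, one_mem _, ?_, ?_⟩⟩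
    · rw [one_smul]
      exact ⟨N.flat.dual_u.self c, N.flat.dual_s.self c⟩
    · rw [one_smul]
      exact Flat.eq_of_zero hc (hsymm _ _ hz).1 (hsymm _ _ hz).2
  · obtain ⟨A, hA, hA'⟩ := N.finite
    let P : ℍ → ℍ → Prop := fun α z => IsPeriodic S z ∧ N.flat.Eqv z c ∧ ∃ γ ∈ S.Γ, γ • z = α
    let w : ℍ → ℍ := fun α => if h : ∃ z, P α z then h.choose else c
    refine ⟨w '' A, hA.image w, fun z hz hzc => ?_⟩
    have hzU : z ∉ N.U := by
      intro hzU
      have h1 : c = z := Flat.eq_of_zero (F := N.flat) hzU hzc.1 hzc.2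
      rw [h1] at hc
      exact hc hzU
    obtain ⟨γ, hγ, hγA⟩ := hA' z hzU hz
    have hex : ∃ z', P (γ • z) z' := ⟨z, hz, hzc, γ, hγ, rfl⟩
    have hw : w (γ • z) = hex.choose := dif_pos hex
    obtain ⟨-, h2, γ', hγ', h3⟩ := hex.choose_spec
    rw [← hw] at h2 h3
    have h4 : (γ'⁻¹ * γ) • z = w (γ • z) := by
      calc (γ'⁻¹ * γ) • z = γ'⁻¹ • γ • z := mul_smul _ _ _
        _ = γ'⁻¹ • γ' • w (γ • z) := by rw [h3]
        _ = w (γ • z) := inv_smul_smul _ _
    have h5 : γ'⁻¹ * γ ∈ S.Γ := S.Γ.mul_mem (S.Γ.inv_mem hγ') hγ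
    refine ⟨γ'⁻¹ * γ, h5, ?_, ?_⟩
    · have h6 := hsymm _ _ (hsmul _ h5 z c hzc)
      rw [h4] at h6
      exact htrans _ _ _ h6 h2
    · rw [h4]
      exact ⟨γ • z, hγA, rfl⟩

variable {r : ℕ} {S : Fin r → SurfaceMap}

theorem finite_type (N : ∀ i, NormalForm (S i)) (κ : ANO.X r 0) :
    ((fun q => MulAction.orbit (TypeGrp (fun i => (N i).flat) κ) q) ''
      {z | (∀ i, IsPeriodic (S i) (z.1 i)) ∧ EqvX (fun i => (N i).flat) z κ}).Finite := by
  choose B hB hB' using fun i => finite_one (N i) (κ.1 i)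
  have hfin : {z : ANO.X r 0 | ∀ i, z.1 i ∈ B i}.Finite := by
    have h1 : (Set.pi Set.univ B).Finite := Set.Finite.pi hB
    have h2 : (Set.univ : Set (Fin 0 → ℝ)).Finite := Set.subsingleton_univ.finite
    refine (h1.prod h2).subset fun z hz => ⟨fun i _ => hz i, Set.mem_univ _⟩
  refine (hfin.image fun q => MulAction.orbit (TypeGrp (fun i => (N i).flat) κ) q).subset ?_
  rintro _ ⟨z, ⟨hz1, hz2⟩, rfl⟩
  choose γ hγ hγc hγB using fun i => hB' i (z.1 i) (hz1 i) (hz2 i)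
  obtain ⟨a, ha, hap⟩ := exists_deck (S := surf S) (k := 0)
    (g := fun p => (fun i => γ i • p.1 i, fun j => p.2 j + (((0 : Fin 0 → ℤ) j : ℤ) : ℝ)))
    ⟨γ, 0, hγ, fun p => rfl⟩
  have haT : a ∈ TypeGrp (fun i => (N i).flat) κ := ⟨ha, fun i => by
    rw [hap]
    exact hγc i⟩
  refine ⟨a z, fun i => ?_, ?_⟩
  · rw [hap]
    exact hγB i
  · exact MulAction.orbit_smul (⟨a, haT⟩ : TypeGrp (fun i => (N i).flat) κ) z

end Pool.Agent.ANO3.Cnt
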