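import Pool.Agent.ANO3.Cnt.Main
import Pool.Agent.ANO3.End.Iface

/-!
# ANO3, module Cnt: the inputs of the final argument

`countableNN`, `singleNN`, `hasBracket`: the three properties of `End/Iface.lean` for a power
`T = Φ ^ n` of an Anosov lift in the situation `Setting S T₀ T`.
-/

set_option autoImplicit false

open Set Filter Topology
open scoped UpperHalfPlane MatrixGroups

namespace Pool.Agent.ANO3.Cnt

open Pool.Agent.ANO Pool.Agent.ANO2 Pool.Agent.ANO3 Pool.Agent.ANO3.Grp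

variable {r : ℕ} {S : Fin r → SurfaceMap} {N : ∀ i, NormalForm (S i)}
  {T₀ Φ : ANO.X r 0 ≃ₜ ANO.X r 0} {n : ℕ}

/-- The type with the components `w i`. -/
def pt_Inst (w : Fin r → ℍ) : ANO.X r 0 := (w, fun j => j.elim0)

private theorem ext_Inst {p q : ANO.X r 0} (h : ∀ i, p.1 i = q.1 i) : p = q :=
  Prod.ext (funext h) (Subsingleton.elim _ _)

private theorem cover_Inst (h : Setting S T₀ (Φ ^ n)) : (T₀ : ANO.X r 0 → ANO.X r 0) =
    prodMap S := funext fun x => ext_Inst fun i => h.cover i x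

/-- The data of `Cnt.Main` from a lift of a power. -/
theorem exists_isFix (hn : 0 < n) (h : Setting S T₀ (Φ ^ n)) (hA : IsAnosovLift (surf S) Φ)
    {m : ℕ} (hm : 0 < m) {T' : ANO.X r 0 ≃ₜ ANO.X r 0} {H : Fin r → ℍ ≃ₜ ℍ}
    (h' : IsLift S (Φ ^ n) m T' H) {w : Fin r → ℍ}
    (hw : ∀ i, ((N i).flat).Eqv (w i) (H i (w i))) :
    ∃ g : Equiv.Perm (ANO.X r 0),
      IsFix (fun i => (N i).flat) Φ T' (n * m) m g (pt_Inst w) := by
  obtain ⟨γ, v, hγ, hT, hH⟩ := h'
  obtain ⟨g, hg, hg'⟩ := exists_deck (isDeck_dk hγ v)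
  have e1 : (Φ ^ n : ANO.X r 0 ≃ₜ ANO.X r 0)^[m] = (Φ ^ (n * m) : ANO.X r 0 ≃ₜ ANO.X r 0) := by
    funext p
    rw [← ANO2.Dim.pow_apply, ← pow_mul]
  refine ⟨g, hA, Nat.mul_pos hn hm, hm, hg, ?_, fun p => ?_, fun i => ?_⟩
  · have h1 := homotopic_iterate h.hom m
    rw [cover_Inst h, e1] at h1
    exact h1
  · rw [hg', hT, e1]
  · have e2 : (g ((prodMap S)^[m] (pt_Inst w))).1 i = H i (w i) := by
      rw [hg', hH]
      show γ i • ((prodMap S)^[m] (pt_Inst w)).1 i = γ i • (S i).f^[m] (w i)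
      rw [prodMap_iter]
      rfl
    rw [e2]
    exact ⟨by rw [(N i).flat.isTree_u.symm]; exact (hw i).1,
      by rw [(N i).flat.isTree_s.symm]; exact (hw i).2⟩

private theorem NN_eq_Inst (h : Setting S T₀ (Φ ^ n)) {m : ℕ} {T' : ANO.X r 0 ≃ₜ ANO.X r 0}
    {H : Fin r → ℍ ≃ₜ ℍ} (h' : IsLift S (Φ ^ n) m T' H) {w : Fin r → ℍ}
    (hw : ∀ i, ((N i).flat).Eqv (w i) (H i (w i))) (x : ANO.X r 0) :
    T' x ∈ NN (fun i => (N i).flat) (Φ ^ n) w w ↔
      x ∈ NN (fun i => (N i).flat) (Φ ^ n) w w := by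
  have h1 := mem_NN_lift (F := fun i => (N i).flat) h h' w w x
  rw [← NN_congr (F := fun i => (N i).flat) h (fun i => (hw i).1) (fun i => (hw i).2)] at h1
  exact h1

theorem countableNN (hn : 0 < n) (h : Setting S T₀ (Φ ^ n)) (hA : IsAnosovLift (surf S) Φ) :
    CountableNN (fun i => (N i).flat) (Φ ^ n) := by
  intro w hw
  obtain ⟨m, T', H, hm, h', hH⟩ := Pool.Agent.ANO3.exists_lift (F := fun i => (N i).flat) h hw
  obtain ⟨g, hfix⟩ := exists_isFix (N := N) hn h hA hm h' (w := w) fun i => (hH i).1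
  obtain ⟨ε, hε, K, hK, hx⟩ := cocompact_NN (F := fun i => (N i).flat) h (w' := w) (w'' := w)
    fun i => (hw i).imp id fun hi => ⟨rfl, hi⟩
  refine countable hfix (R := NN (fun i => (N i).flat) (Φ ^ n) w w) (fun x hxR => ⟨?_, ?_⟩) hK
    fun x hxR => ?_
  · exact (NN_eq_Inst (N := N) h h' (fun i => (hH i).1) x).2 hxR
  · rw [← NN_eq_Inst (N := N) h h' (fun i => (hH i).1), T'.apply_symm_apply]
    exact hxR
  · obtain ⟨γ, hγ, -, h1, -, h2⟩ := hx x fun i =>
      ⟨by rw [(hxR i).1]; exact hε.le, by rw [(hxR i).2]; exact hε.le⟩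
    obtain ⟨a, ha, ha'⟩ := exists_deck (isDeck_dk hγ fun j => j.elim0)
    refine ⟨a, ⟨ha, fun i => ?_⟩, by rw [ha']; exact h2⟩
    have e : (a (pt_Inst w)).1 i = γ i • w i := by rw [ha']; rfl
    rw [e]
    exact ⟨by rw [(N i).flat.isTree_u.symm]; exact (h1 i).1,
      by rw [(N i).flat.isTree_s.symm]; exact (h1 i).2⟩

theorem singleNN (hn : 0 < n) (h : Setting S T₀ (Φ ^ n)) (hA : IsAnosovLift (surf S) Φ) :
    SingleNN (fun i => (N i).flat) (Φ ^ n) := by
  intro w hw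
  obtain ⟨m, T', H, hm, h', hH⟩ := Pool.Agent.ANO3.exists_lift (F := fun i => (N i).flat) h
    fun i => Or.inl (hw i)
  obtain ⟨g, hfix⟩ := exists_isFix (N := N) hn h hA hm h' (w := w) fun i => (hH i).1
  have hU : ∀ i, (pt_Inst w).1 i ∈ (N i).U := fun i => (hw i).1
  obtain ⟨q, hq, -⟩ := existsUnique hfix hU
  have hinv := NN_eq_Inst (N := N) h h' fun i => (hH i).1
  refine ⟨q, Subset.antisymm (fun x hxR => ?_) ?_⟩
  · have hz : ∀ i : ℤ, (T' ^ i) x ∈ NN (fun i => (N i).flat) (Φ ^ n) w w := by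
      intro j
      induction j using Int.induction_on with
      | zero => exact hxR
      | succ j ih =>
        have e : (T' ^ ((j : ℤ) + 1)) x = T' ((T' ^ (j : ℤ)) x) := by
          rw [add_comm, zpow_one_add]
          rfl
        rw [e, hinv]
        exact ih
      | pred j ih =>
        have e : (T' ^ (-(j : ℤ))) x = T' ((T' ^ (-(j : ℤ) - 1)) x) := by
          have e2 : -(j : ℤ) = 1 + (-(j : ℤ) - 1) := by ring
          conv_lhs => rw [e2, zpow_one_add]
          rfl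
        rw [e, hinv] at ih
        exact ih
    exact eq_of_bdd_orbit hfix hU hq (isCompact_NN (F := fun i => (N i).flat) h hw) hz
  · intro x hx i
    rw [mem_singleton_iff.1 hx]
    have e1 : H i (w i) = w i := (hH i).2 (hw i)
    have hq' : T'^[1] q = q := hq
    have hl : 1 < ((N i).flat).l ^ (m * 1) :=
      one_lt_pow₀ (N i).flat.one_lt (Nat.mul_pos hm one_pos).ne'
    have h1 := DU_iterate (F := fun i => (N i).flat) h h' e1 1 q
    have h2 := DS_iterate (F := fun i => (N i).flat) h h' e1 1 q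
    rw [hq'] at h1 h2
    have h3 := (isTree_DU (F := fun i => (N i).flat) h i).nonneg (Sum.inl (w i)) (Sum.inr q)
    have h4 := (isTree_DS (F := fun i => (N i).flat) h i).nonneg (Sum.inl (w i)) (Sum.inr q)
    constructor <;> nlinarith

/-- The pseudo-distance of two points with close futures is `0`. -/
private theorem future_Inst {T₀ T : ANO.X r 0 ≃ₜ ANO.X r 0} {S : Fin r → SurfaceMap}
    {F : ∀ i, Flat (S i)} (h : Setting S T₀ T) {x y : ANO.X r 0}
    (hxy : ∀ n : ℕ, dist ((T ^ n) x) ((T ^ n) y) ≤ 1) (i : Fin r) :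
    DU F T i (Sum.inr x) (Sum.inr y) = 0 := by
  obtain ⟨C, hC0, hC⟩ := abs_Dis_sub_le (F i) (h.isSys_X i)
  obtain ⟨C₁, hC₁⟩ := (F i).upper 1
  have h1 : ∀ n : ℕ, DU F T i (Sum.inr ((T ^ n) x)) (Sum.inr ((T ^ n) y)) ≤ C + C₁ := by
    intro n
    have h2 := (abs_le.1 (hC (Sum.inr ((T ^ n) x)) (Sum.inr ((T ^ n) y)))).2
    have h3 : dist (((T ^ n) x).1 i) (((T ^ n) y).1 i) ≤ 1 :=
      (dist_le_pi_dist _ _ i).trans ((le_max_left _ _).trans (hxy n))
    have h4 := (hC₁ _ _ h3).1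
    have h5 : (F i).du (pr (pX i) (Sum.inr ((T ^ n) x))) (pr (pX i) (Sum.inr ((T ^ n) y))) =
      (F i).du (((T ^ n) x).1 i) (((T ^ n) y).1 i) := rfl
    rw [h5] at h2
    show Dis (F i) (pX i) T _ _ ≤ _
    linarith
  have hl0 : 0 < (F i).l := lt_trans one_pos (F i).one_lt
  have h6 : ∀ n : ℕ, (F i).l ^ n * DU F T i (Sum.inr x) (Sum.inr y) ≤
      DU F T i (Sum.inr ((T ^ n) x)) (Sum.inr ((T ^ n) y)) := by
    intro n
    induction n with
    | zero => simp
    | succ n ih =>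
      have h7 := (Dis_step (F i) (h.isSys_X i) (Sum.inr ((T ^ n) x)) (Sum.inr ((T ^ n) y))).1
      have e : ∀ z, (T ^ (n + 1)) z = T ((T ^ n) z) := by
        intro z
        rw [pow_succ']
        rfl
      rw [e, e]
      have h8 : (F i).l * DU F T i (Sum.inr ((T ^ n) x)) (Sum.inr ((T ^ n) y)) ≤
        DU F T i (Sum.inr (T ((T ^ n) x))) (Sum.inr (T ((T ^ n) y))) := h7
      rw [pow_succ', mul_assoc]
      exact (mul_le_mul_of_nonneg_left ih hl0.le).trans h8
  have h0 := (isTree_DU (F := F) h i).nonneg (Sum.inr x) (Sum.inr y)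
  by_contra hne
  have hpos : 0 < DU F T i (Sum.inr x) (Sum.inr y) := lt_of_le_of_ne h0 (Ne.symm hne)
  obtain ⟨n, hn⟩ := (tendsto_pow_atTop_atTop_of_one_lt (F i).one_lt).eventually_gt_atTop
    ((C + C₁) / DU F T i (Sum.inr x) (Sum.inr y)) |>.exists
  rw [div_lt_iff₀ hpos] at hn
  exact absurd ((h6 n).trans (h1 n)) (not_le.2 hn)

theorem hasBracket (hn : 0 < n) (h : Setting S T₀ (Φ ^ n)) (hA : IsAnosovLift (surf S) Φ)
    (F : ∀ i, Flat (S i)) : HasBracket F (Φ ^ n) := by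
  intro b
  obtain ⟨δ, hδ, h1⟩ := bracket (ANO2.Dyn.main hA hn).2 one_pos
  refine ⟨Metric.ball b (δ / 2), Metric.ball_mem_nhds b (by positivity), fun x hx y hy => ?_⟩
  have hxy : dist x y ≤ δ := by
    have h2 := dist_triangle_right x y b
    rw [Metric.mem_ball] at hx hy
    linarith
  obtain ⟨p, hp, hp'⟩ := h1 x y hxy
  refine ⟨p, fun i => ⟨future_Inst h (fun j => ?_) i, ?_⟩⟩
  · rw [dist_comm]
    exact hp j
  · refine future_Inst (F := fun i => (F i).rev) h.symm (fun j => ?_) i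
    have e : ∀ z, ((Φ ^ n).symm ^ j) z = ((Φ ^ n) ^ j).symm z := by
      intro z
      rw [eq_comm, Homeomorph.symm_apply_eq]
      have h3 : (Φ ^ n).symm ^ j = ((Φ ^ n) ^ j)⁻¹ := inv_pow (Φ ^ n) j
      rw [h3]
      exact (Homeomorph.apply_symm_apply ((Φ ^ n) ^ j) z).symm
    rw [e, e, dist_comm]
    exact hp' j

end Pool.Agent.ANO3.Cnt
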