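import Pool.Agent.ANO3.Cnt.Typ

/-!
# ANO3, module Cnt: nondegenerate fixed points of the model (package CNT-NONDEG)

`nondeg`: all fixed points of `g ∘ (prodMap S)^[m]`, `m > 0`, are nondegenerate.

PROOF.  Let `g` act on the component `i` by `γ i ∈ (S i).Γ`, and let `w` be a fixed point:
`γ i • (S i).f^[m] (w.1 i) = w.1 i` (`prodMap_iter`).  Put
`h i z = ((γ i • (S i).f^[m] (UpperHalfPlane.ofComplex z) : ℍ) : ℂ)`.  By `(N i).nondeg` the
function `h i` is of class `C¹` at `w.1 i`, so on an open neighbourhood `V i` (`ContDiffAt ℝ 1` at a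
point gives `ContDiffOn ℝ 1` on a neighbourhood: `ContDiffAt.contDiffOn` or
`contDiffAt_one_iff`), and `1 - D (h i)` has non-zero determinant.
`loc (g ∘ (prodMap S)^[m]) x = (fun i => h i (x.1 i), x.2)` (the second component is a function on
`Fin 0`, so all functions with values there are equal).  So the map is `C¹` on
`{x | ∀ i, x.1 i ∈ V i}` (`contDiffOn_pi`, `ContDiffOn.prodMk`; the second component is constant),
a neighbourhood of `toE w`.  The derivative of `x - loc .. x` at `toE w` is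
`v ↦ (fun i => v.1 i - D (h i) (v.1 i), 0)` (`hasFDerivAt_pi`, as in the private `fd_ProdT` of
`Pool/Agent/ANO2/Idx2/ProdT.lean`).  It is injective: if the value is `0` then
`v.1 i - D (h i) (v.1 i) = 0`, so `v.1 i = 0` because the determinant of the component is not zero
(a linear map of a finite dimensional space with non-zero determinant is injective, e.g.
`LinearMap.equivOfDetNeZero`, `LinearMap.bot_lt_ker_of_det_eq_zero` for the converse), and `v.2 = 0`
since `Fin 0` is empty.  An injective endomorphism has non-zero determinant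
(`LinearMap.bot_lt_ker_of_det_eq_zero`).
-/

set_option autoImplicit false

open Set Filter Topology
open scoped UpperHalfPlane MatrixGroups

namespace Pool.Agent.ANO3.Cnt

open Pool.Agent.ANO Pool.Agent.ANO2 Pool.Agent.ANO3.Grp

variable {r : ℕ} {S : Fin r → SurfaceMap}

/-- a product of local maps with the second factor a point -/
private theorem prod_Nondeg (h : Fin r → ℂ → ℂ) (w : ANO.E r 0)
    (T : ANO.E r 0 → ANO.E r 0) (hT : ∀ x i, (T x).1 i = h i (x.1 i))
    (h1 : ∀ i, ContDiffAt ℝ 1 (h i) (w.1 i))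
    (h2 : ∀ i, (fderiv ℝ (fun x : ℂ => x - h i x) (w.1 i)).det ≠ 0) :
    (∃ V ∈ 𝓝 w, ContDiffOn ℝ 1 T V) ∧ (fderiv ℝ (fun x => x - T x) w).det ≠ 0 := by
  have hTe : T = fun x : ANO.E r 0 => ((fun i => h i (x.1 i)), (0 : Fin 0 → ℝ)) := by
    funext x
    exact Prod.ext (funext fun i => hT x i) (Subsingleton.elim _ _)
  have hc : ∀ i, ∃ V ∈ 𝓝 (w.1 i), ContDiffOn ℝ 1 (h i) V := fun i => by
    have h3 := (h1 i).contDiffOn (m := 1) le_rfl (by simp)
    obtain ⟨V, hV, h4⟩ := h3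
    exact ⟨V, hV, h4⟩
  choose V hV hVc using hc
  refine ⟨⟨{x | ∀ i, x.1 i ∈ V i}, ?_, ?_⟩, ?_⟩
  · rw [Set.ofPred_forall]
    refine (Filter.iInter_mem).2 fun i => ?_
    have h3 : ContinuousAt (fun x : ANO.E r 0 => x.1 i) w :=
      ((continuous_apply i).comp continuous_fst).continuousAt
    exact h3 (hV i)
  · rw [hTe]
    refine ContDiffOn.prodMk (contDiffOn_pi.2 fun i => ?_) contDiffOn_const
    refine (hVc i).comp (g := h i) (f := fun x : ANO.E r 0 => x.1 i) ?_ ?_
    · exact ((contDiff_apply ℝ ℂ i).comp contDiff_fst).contDiffOn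
    · exact fun x hx => hx i
  · have hd : ∀ i, HasFDerivAt (fun x : ℂ => x - h i x)
        (fderiv ℝ (fun x : ℂ => x - h i x) (w.1 i)) (w.1 i) := fun i => by
      refine DifferentiableAt.hasFDerivAt ?_
      exact differentiableAt_id.sub ((h1 i).differentiableAt one_ne_zero)
    have hF : HasFDerivAt (fun x => x - T x)
        ((ContinuousLinearMap.pi fun i => (fderiv ℝ (fun x : ℂ => x - h i x) (w.1 i)) ∘L
        ((ContinuousLinearMap.proj i : (Fin r → ℂ) →L[ℝ] ℂ) ∘L
          (ContinuousLinearMap.fst ℝ (Fin r → ℂ) (Fin 0 → ℝ)))).prod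
        (0 : ANO.E r 0 →L[ℝ] (Fin 0 → ℝ))) w := by
      have he : (fun x => x - T x) = fun x : ANO.E r 0 =>
          ((fun i => x.1 i - h i (x.1 i)), (0 : Fin 0 → ℝ)) := by
        funext x
        refine Prod.ext (funext fun i => ?_) (Subsingleton.elim _ _)
        show x.1 i - (T x).1 i = x.1 i - h i (x.1 i)
        rw [hT]
      rw [he]
      refine HasFDerivAt.prodMk (hasFDerivAt_pi.2 fun i => ?_) (hasFDerivAt_const _ _)
      have h4 : HasFDerivAt (fun x : ANO.E r 0 => x.1 i)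
          ((ContinuousLinearMap.proj i : (Fin r → ℂ) →L[ℝ] ℂ) ∘L
            (ContinuousLinearMap.fst ℝ (Fin r → ℂ) (Fin 0 → ℝ))) w :=
        ((ContinuousLinearMap.proj i : (Fin r → ℂ) →L[ℝ] ℂ) ∘L
            (ContinuousLinearMap.fst ℝ (Fin r → ℂ) (Fin 0 → ℝ))).hasFDerivAt
      exact HasFDerivAt.comp (g := fun x : ℂ => x - h i x) w (hd i) h4
    rw [hF.fderiv]
    refine SmoothDegree.det_ne_zero_of_inj _ fun u hu => ?_
    refine Prod.ext (funext fun i => ?_) (Subsingleton.elim _ _)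
    have h5 : (fderiv ℝ (fun x : ℂ => x - h i x) (w.1 i)) (u.1 i) = 0 :=
      congrFun (congrArg Prod.fst hu) i
    by_contra h6
    have h7 := (LinearMap.equivOfDetNeZero
      ((fderiv ℝ (fun x : ℂ => x - h i x) (w.1 i) : ℂ →L[ℝ] ℂ) : ℂ →ₗ[ℝ] ℂ) (h2 i)).injective
    refine h6 (h7 (a₁ := u.1 i) (a₂ := 0) ?_)
    rw [map_zero]
    exact h5

theorem nondeg (N : ∀ i, NormalForm (S i)) {m : ℕ} (hm : 0 < m)
    {g : Equiv.Perm (ANO.X r 0)} (hg : g ∈ Deck (surf S) 0) :
    Grp.Nondeg (g ∘ (prodMap S)^[m] : ANO.X r 0 → ANO.X r 0) := by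
  intro w hw
  obtain ⟨γ, v, hγ, hgv⟩ := hg
  have hw1 : ∀ i, γ i • (S i).f^[m] (w.1 i) = w.1 i := fun i => by
    have h1 : g ((prodMap S)^[m] w) = w := hw
    rw [hgv] at h1
    have h2 := congrFun (congrArg Prod.fst h1) i
    have h3 : γ i • ((prodMap S)^[m] w).1 i = w.1 i := h2
    rwa [prodMap_iter] at h3
  refine prod_Nondeg
    (fun i z => ((γ i • (S i).f^[m] (UpperHalfPlane.ofComplex z) : ℍ) : ℂ)) (toE w)
    (loc (g ∘ (prodMap S)^[m])) (fun x i => ?_) (fun i => ?_) (fun i => ?_)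
  · have h1 : g ((prodMap S)^[m] (ofE x)) =
        (fun i => γ i • ((prodMap S)^[m] (ofE x)).1 i,
          fun j => ((prodMap S)^[m] (ofE x)).2 j + v j) := hgv _
    have h2 : ((toE (g ((prodMap S)^[m] (ofE x)))).1 i : ℂ) =
        ((γ i • ((prodMap S)^[m] (ofE x)).1 i : ℍ) : ℂ) := by
      rw [h1]
      rfl
    have h3 : (loc (g ∘ (prodMap S)^[m]) x).1 i =
        ((γ i • ((prodMap S)^[m] (ofE x)).1 i : ℍ) : ℂ) := h2
    rw [h3, prodMap_iter]
    rfl
  · exact ((N i).nondeg (w.1 i) m (γ i) hm (hγ i) (hw1 i)).1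
  · exact ((N i).nondeg (w.1 i) m (γ i) hm (hγ i) (hw1 i)).2

end Pool.Agent.ANO3.Cnt
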