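import Pool.Agent.ANO3.Cnt.Typ

/-!
# ANO3, module Cnt: periodic points of the model of one type (package CNT-SELF)

`T₀ = g ∘ (prodMap S)^[m]`, `perPts (TypeGrp N κ) T₀ j` is the set of the points `z` with
`a (T₀^[j] z) = z` for some `a ∈ TypeGrp N κ`.

PROOFS.  `exists_lift`: for `a ∈ Deck (surf S) 0` and `j : ℕ` there are lifts `H i` of
`(S i).f^[m * j]` with `(a (T₀^[j] p)).1 i = H i (p.1 i)` for all `p`, `i`: by induction on `j`
from `exists_liftPow`, `IsLiftPow.comp`, `IsLiftPow.smul`, `prodMap_iter` (an element of the deck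
group acts on the component `i` by an element of `(S i).Γ`).
`T₀^[j] κ ~ κ` (induction: `T₀ κ ~ κ` by `h.fix`, `eqvX_smul`, `eqvX_iter`), so
`a (T₀^[j] κ) ~ a κ ~ κ` for `a ∈ TypeGrp N κ`.
`type_of_per`: `j > 0`, `a (T₀^[j] z) = z`, `a ∈ TypeGrp`.  With `H i` as above, `c = κ.1 i`,
`z_i = z.1 i`: `H z_i = z_i`, `Eqv (H c) c`.  `du (H c) (H z_i) = du c z_i` (the triangle inequality
with `du (H c) c = 0`), and `l ^ (m j) du c z_i ≤ du (H c) (H z_i)` (`Flat.du_lift`), with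
`l ^ (m j) > 1`; so `du c z_i = 0`.  Similarly `l ^ (m j) ds (H c) (H z_i) ≤ ds c z_i` and
`ds (H c) (H z_i) = ds c z_i`, so `ds c z_i = 0`.
`periodic_of_per`: `H z_i = z_i` with `H` a lift of `f^[m * j]`, `m * j > 0`; `isPeriodic_iff`.
`self`: `z ~ κ`, `a z ~ κ`, so `a κ ~ a z ~ κ`.
`unique`: if all `κ.1 i ∈ U_i` then `a = 1` for `a ∈ TypeGrp`: `a κ ~ κ` gives `a κ = κ`
(`Flat.eq_of_zero`), so `a = 1` (`Grp.eq_of_apply_eq` with `1`).
`eq_of_type`: `Flat.eq_of_zero` (and the second component is a function on `Fin 0`).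
-/

set_option autoImplicit false

open Set Filter Topology
open scoped UpperHalfPlane MatrixGroups

namespace Pool.Agent.ANO3.Cnt

open Pool.Agent.ANO Pool.Agent.ANO2 Pool.Agent.ANO3.Grp

variable {r : ℕ} {S : Fin r → SurfaceMap} {N : ∀ i, Flat (S i)}
  {F T : ANO.X r 0 ≃ₜ ANO.X r 0} {M m : ℕ} {g : Equiv.Perm (ANO.X r 0)} {κ : ANO.X r 0}

theorem exists_lift (hg : g ∈ Deck (surf S) 0) {a : Equiv.Perm (ANO.X r 0)}
    (ha : a ∈ Deck (surf S) 0) (m j : ℕ) :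
    ∃ H : Fin r → ℍ ≃ₜ ℍ, (∀ i, IsLiftPow (S i) (m * j) (H i)) ∧
      ∀ p i, (a ((g ∘ (prodMap S)^[m])^[j] p)).1 i = H i (p.1 i) := by
  induction j with
  | zero =>
    obtain ⟨γ, v, hγ, ha'⟩ := ha
    choose H h1 h2 using fun i => exists_liftPow (S := S i) (m * 0) (hγ i)
    refine ⟨H, h1, fun p i => ?_⟩
    rw [h2, Nat.mul_zero, Function.iterate_zero_apply, Function.iterate_zero_apply]
    exact congrFun (congrArg Prod.fst (ha' p)) i
  | succ j ih =>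
    obtain ⟨H, h1, h2⟩ := ih
    obtain ⟨γ, v, hγ, hg'⟩ := hg
    choose H' h3 h4 using fun i => exists_liftPow (S := S i) m (hγ i)
    refine ⟨fun i => (H' i).trans (H i), fun i => ?_, fun p i => ?_⟩
    · rw [Nat.mul_succ]
      exact (h1 i).comp (h3 i)
    · rw [Function.iterate_succ_apply, h2, Homeomorph.trans_apply, h4, ← prodMap_iter]
      congr 1
      exact congrFun (congrArg Prod.fst (hg' ((prodMap S)^[m] p))) i

private theorem iter_Self (h : IsFix N F T M m g κ) (j : ℕ) :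
    EqvX N ((g ∘ (prodMap S)^[m])^[j] κ) κ := by
  induction j with
  | zero => exact EqvX.refl N κ
  | succ j ih =>
    rw [Function.iterate_succ_apply']
    have h1 : EqvX N ((prodMap S)^[m] ((g ∘ (prodMap S)^[m])^[j] κ)) ((prodMap S)^[m] κ) :=
      (eqvX_iter N m _ _).2 ih
    exact ((eqvX_smul N h.deck _ _).2 h1).trans h.fix

theorem IsFix.type_of_per (h : IsFix N F T M m g κ) {j : ℕ} (hj : 0 < j) {z : ANO.X r 0}
    (hz : z ∈ perPts (TypeGrp N κ) (g ∘ (prodMap S)^[m]) j) : EqvX N z κ := by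
  obtain ⟨a, ha, haz⟩ := hz
  obtain ⟨H, h1, h2⟩ := exists_lift h.deck ha.1 m j
  have h3 : EqvX N (a ((g ∘ (prodMap S)^[m])^[j] κ)) κ :=
    ((eqvX_smul N ha.1 _ _).2 (iter_Self h j)).trans ha.2
  intro i
  have hz1 : H i (z.1 i) = z.1 i := by rw [← h2, haz]
  have hκ : (N i).Eqv (H i (κ.1 i)) (κ.1 i) := by
    have := h3 i
    rwa [h2] at this
  have hmj : m * j ≠ 0 := (Nat.mul_pos h.m_pos hj).ne'
  have hl : 1 < (N i).l ^ (m * j) := one_lt_pow₀ (N i).one_lt hmj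
  have hu := ((N i).du_lift (h1 i) (κ.1 i) (z.1 i)).1
  have hs := ((N i).ds_lift (h1 i) (κ.1 i) (z.1 i)).1
  rw [hz1] at hu hs
  have hu0 := (N i).du_nonneg (κ.1 i) (z.1 i)
  have hs0 := (N i).ds_nonneg (κ.1 i) (z.1 i)
  have tu := (N i).isTree_u
  have ts := (N i).isTree_s
  rw [tu.congr_left hκ.1] at hu
  rw [ts.congr_left hκ.2] at hs
  constructor
  · rw [tu.symm]
    nlinarith
  · rw [ts.symm]
    nlinarith

theorem IsFix.periodic_of_per (h : IsFix N F T M m g κ) {j : ℕ} (hj : 0 < j) {z : ANO.X r 0}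
    (hz : z ∈ perPts (TypeGrp N κ) (g ∘ (prodMap S)^[m]) j) (i : Fin r) :
    IsPeriodic (S i) (z.1 i) := by
  obtain ⟨a, ha, haz⟩ := hz
  obtain ⟨H, h1, h2⟩ := exists_lift h.deck ha.1 m j
  refine isPeriodic_iff.2 ⟨m * j, H i, Nat.mul_pos h.m_pos hj, h1 i, ?_⟩
  rw [← h2, haz]

theorem IsFix.self (h : IsFix N F T M m g κ) {j : ℕ} (hj : 0 < j) {a : Equiv.Perm (ANO.X r 0)}
    (ha : a ∈ Deck (surf S) 0) {z : ANO.X r 0}
    (hz : z ∈ perPts (TypeGrp N κ) (g ∘ (prodMap S)^[m]) j)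
    (hz' : a z ∈ perPts (TypeGrp N κ) (g ∘ (prodMap S)^[m]) j) : a ∈ TypeGrp N κ := by
  have h1 := h.type_of_per hj hz
  have h2 := h.type_of_per hj hz'
  exact ⟨ha, ((eqvX_smul N ha _ _).2 h1.symm).trans h2⟩

theorem eq_of_type (hκ : ∀ i, κ.1 i ∈ (N i).U) {z : ANO.X r 0} (hz : EqvX N z κ) : z = κ := by
  refine Prod.ext (funext fun i => ?_) (Subsingleton.elim _ _)
  obtain ⟨h1, h2⟩ := hz i
  refine Flat.eq_of_zero (hκ i) ?_ ?_
  · rw [(N i).isTree_u.symm]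
    exact h1
  · rw [(N i).isTree_s.symm]
    exact h2

theorem typeGrp_eq_bot (hκ : ∀ i, κ.1 i ∈ (N i).U) : TypeGrp N κ = ⊥ := by
  rw [eq_bot_iff]
  intro a ha
  rw [Subgroup.mem_bot]
  exact eq_of_apply_eq (p := κ) ha.1 (one_mem _) (eq_of_type hκ ha.2)

end Pool.Agent.ANO3.Cnt
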