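import Pool.Agent.ANO3.Cnt.Count
import Pool.Agent.ANO3.Cnt.Self
import Pool.Agent.ANO3.Cnt.Nondeg
import Pool.Agent.ANO3.Cnt.FinMod

/-!
# ANO3, module Cnt: the main results (package CNT-MAIN)

`N : ∀ i, NormalForm (S i)`, `h : IsFix (fun i => (N i).flat) F T M m g κ` (see `Typ.lean`).

PROOFS.  `(T ^ j) x = T^[j] x` is `ANO2.Dim.pow_apply`; `T = g ∘ F ^ M` (`h.eq`).
`per_eq`: a point of `Per (TypeGrp _ κ) T` belongs to
`perPts (TypeGrp _ κ) (g ∘ (F ^ M)) j` for some `j > 0`, and conversely (the two functions `T` and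
`g ∘ (F ^ M)` are equal).
`finite_per`: `Grp.finite_periodic` with `G₀ = (prodMap S)^[m]` (continuous: `prodMap S` is),
`H = TypeGrp _ κ`; `hHD = typeGrp_le`, `hH = h.fwd`, `hself = h.self`; `hnd`: for `a ∈ TypeGrp`,
`j > 0` the function `a ∘ (g ∘ (prodMap S)^[m])^[j]` is `g' ∘ (prodMap S)^[m * j]` with
`g' ∈ Deck` (`Grp.exists_iterate` for `G = G₀`, or with `h.hom`; `a * g'`), so `nondeg` applies;
`hfin`: the set is contained in that of `finite_type` by `h.periodic_of_per`, `h.type_of_per`.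
`discrete`: `{a ∈ Deck | dist (a c') c ≤ 1}` is finite: `ANO2.Dyn.deck_finite` for the compact set
`closedBall c 1 ∪ {c'}` (`ProperSpace`: `isCompact_closedBall`); a permutation is determined by its
function.
`countable`: `countable_of_cpt` with `h.norm`, `ANO2.Dim.liftOf_exp`, `liftOf_sh`, `liftOf_uc`,
`finite_per`, `discrete` (for the subgroup).
`existsUnique`: `Grp.existsUnique` with `G₀ = (prodMap S)^[m]`, `w = κ`: `T₀ κ = κ` by `h.fix` and
`eq_of_type`; a fixed point `w'` of `T₀` is `κ` by `h.type_of_per` with `j = 1`, `a = 1` and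
`eq_of_type`; `hnd` is `nondeg`.
`IsFix.pow`: `IsFix` for `T ^ j`, `j > 0`: `M * j`, `m * j`, `g'` from `Grp.exists_iterate`,
`Grp.homotopic_iterate`, `(F ^ M)^[j] = F ^ (M * j)`; `fix`: `T₀^[j] κ ~ κ` by induction.
`fixed_pow`: by `IsFix.pow` and `existsUnique` `T ^ j` has exactly one fixed point, and `q` is one.
`eq_of_bdd_orbit`: `eq_of_bdd` with `fixed_pow`.
`isFix_symm` is not needed: `T` is a homeomorphism.
-/

set_option autoImplicit false

open Set Filter Topology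
open scoped UpperHalfPlane MatrixGroups

namespace Pool.Agent.ANO3.Cnt

open Pool.Agent.ANO Pool.Agent.ANO2 Pool.Agent.ANO3.Grp

variable {r : ℕ} {S : Fin r → SurfaceMap} {N : ∀ i, NormalForm (S i)}
  {F T : ANO.X r 0 ≃ₜ ANO.X r 0} {M m : ℕ} {g : Equiv.Perm (ANO.X r 0)} {κ : ANO.X r 0}

private theorem cont_Main (S : Fin r → SurfaceMap) : Continuous (prodMap S) := by
  unfold prodMap
  exact (continuous_pi fun i => (S i).f.continuous.comp
    ((continuous_apply i).comp continuous_fst)).prodMk continuous_snd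

private theorem per_eq_Main (h : IsFix (fun i => (N i).flat) F T M m g κ) :
    Per (TypeGrp (fun i => (N i).flat) κ) T = {x | ∃ j : ℕ, 0 < j ∧
      x ∈ perPts (TypeGrp (fun i => (N i).flat) κ)
        (g ∘ (F ^ M : ANO.X r 0 ≃ₜ ANO.X r 0)) j} := by
  have e : (T : ANO.X r 0 → ANO.X r 0) = g ∘ (F ^ M : ANO.X r 0 ≃ₜ ANO.X r 0) := funext h.eq
  ext x
  constructor
  · rintro ⟨j, hj, a, ha, hx⟩
    refine ⟨j, hj, a, ha, ?_⟩
    rw [← e, ← ANO2.Dim.pow_apply]
    exact hx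
  · rintro ⟨j, hj, a, ha, hx⟩
    refine ⟨j, hj, a, ha, ?_⟩
    rw [ANO2.Dim.pow_apply, e]
    exact hx

theorem finite_per (h : IsFix (fun i => (N i).flat) F T M m g κ) :
    ((fun q => MulAction.orbit (TypeGrp (fun i => (N i).flat) κ) q) ''
      Per (TypeGrp (fun i => (N i).flat) κ) T).Finite := by
  rw [per_eq_Main h]
  refine Grp.finite_periodic h.lift h.M_pos ((cont_Main S).iterate m) h.hom h.deck
    (typeGrp_le _ κ) h.fwd (fun j hj a ha z hz hz' => h.self hj ha hz hz') ?_ ?_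
  · intro j hj a ha
    obtain ⟨g', hg', e1, -⟩ := Grp.exists_iterate h.hom h.deck j
    have e : (a ∘ (g ∘ (prodMap S)^[m])^[j] : ANO.X r 0 → ANO.X r 0) =
        (a * g' : Equiv.Perm (ANO.X r 0)) ∘ (prodMap S)^[m * j] := by
      funext p
      show a ((g ∘ (prodMap S)^[m])^[j] p) = a (g' ((prodMap S)^[m * j] p))
      rw [e1, Function.iterate_mul]
    rw [e]
    exact nondeg N (Nat.mul_pos h.m_pos hj) (mul_mem (typeGrp_le _ κ ha) hg')
  · refine (finite_type N κ).subset (image_mono ?_)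
    rintro x ⟨j, hj, hx⟩
    exact ⟨fun i => h.periodic_of_per hj hx i, h.type_of_per hj hx⟩

theorem discrete (S : Fin r → ClosedSurface) (k : ℕ) (c c' : ANO.X r k) :
    {a : Equiv.Perm (ANO.X r k) | a ∈ Deck S k ∧ dist (a c') c ≤ 1}.Finite := by
  have hK : IsCompact (Metric.closedBall c 1 ∪ {c'}) :=
    (isCompact_closedBall c 1).union isCompact_singleton
  have h1 := (Dyn.deck_finite (S := S) hK).preimage
    (f := fun a : Equiv.Perm (ANO.X r k) => (a : ANO.X r k → ANO.X r k))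
    (DFunLike.coe_injective.injOn)
  refine h1.subset ?_
  rintro a ⟨ha, hd⟩
  exact ⟨ha, c', Or.inr rfl, Or.inl hd⟩

/-- A set which is invariant and compact modulo the group of the type is countable. -/
theorem countable (h : IsFix (fun i => (N i).flat) F T M m g κ) {R : Set (ANO.X r 0)}
    (hR : ∀ x ∈ R, T x ∈ R ∧ T.symm x ∈ R) {K : Set (ANO.X r 0)} (hK : IsCompact K)
    (hRK : ∀ x ∈ R, ∃ a ∈ TypeGrp (fun i => (N i).flat) κ, a x ∈ K) : R.Countable := by
  have hu := ANO2.Dim.liftOf_uc h.lift h.liftOf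
  refine countable_of_cpt h.norm (ANO2.Dim.liftOf_exp h.lift h.M_pos h.liftOf)
    (ANO2.Dim.liftOf_sh h.lift h.M_pos h.liftOf) hu.1 hu.2 (finite_per h) ?_ hR hK hRK
  intro c c'
  refine (discrete (surf S) 0 c c').subset ?_
  rintro a ⟨ha, hd⟩
  exact ⟨typeGrp_le _ κ ha, hd⟩

theorem existsUnique (h : IsFix (fun i => (N i).flat) F T M m g κ)
    (hκ : ∀ i, κ.1 i ∈ (N i).U) : ∃! q, T q = q := by
  have h1 : ∃! q, g ((F ^ M) q) = q := by
    refine Grp.existsUnique h.lift h.M_pos ((cont_Main S).iterate m) h.hom h.deck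
      (nondeg N h.m_pos h.deck) (w := κ) (eq_of_type (N := fun i => (N i).flat) hκ h.fix) ?_
    intro w' hw'
    refine eq_of_type (N := fun i => (N i).flat) hκ (h.type_of_per one_pos ?_)
    exact ⟨1, one_mem _, hw'⟩
  obtain ⟨q, hq, huniq⟩ := h1
  refine ⟨q, ?_, fun q' hq' => huniq q' ?_⟩
  · show T q = q
    rw [h.eq]
    exact hq
  · show g ((F ^ M) q') = q'
    rw [← h.eq]
    exact hq'

private theorem fix_iter_Main (h : IsFix (fun i => (N i).flat) F T M m g κ) (j : ℕ) :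
    EqvX (fun i => (N i).flat) ((g ∘ (prodMap S)^[m])^[j] κ) κ := by
  induction j with
  | zero => exact EqvX.refl _ κ
  | succ j ih =>
    rw [Function.iterate_succ_apply']
    refine EqvX.trans ?_ h.fix
    exact (eqvX_smul _ h.deck _ _).2 ((eqvX_iter _ m _ _).2 ih)

theorem IsFix.pow (h : IsFix (fun i => (N i).flat) F T M m g κ) {j : ℕ} (hj : 0 < j) :
    ∃ g' : Equiv.Perm (ANO.X r 0),
      IsFix (fun i => (N i).flat) F (T ^ j) (M * j) (m * j) g' κ := by
  obtain ⟨g', hg', e1, e2⟩ := Grp.exists_iterate h.hom h.deck j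
  have eF : ((F ^ (M * j) : ANO.X r 0 ≃ₜ ANO.X r 0) : ANO.X r 0 → ANO.X r 0) =
      (F ^ M : ANO.X r 0 ≃ₜ ANO.X r 0)^[j] := by
    funext p
    rw [pow_mul, ANO2.Dim.pow_apply]
  have e : (T : ANO.X r 0 → ANO.X r 0) = g ∘ (F ^ M : ANO.X r 0 ≃ₜ ANO.X r 0) := funext h.eq
  refine ⟨g', h.lift, Nat.mul_pos h.M_pos hj, Nat.mul_pos h.m_pos hj, hg', ?_, fun p => ?_, ?_⟩
  · rw [eF, Function.iterate_mul]
    exact Grp.homotopic_iterate h.hom j
  · rw [ANO2.Dim.pow_apply, e, e2, eF]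
  · have h1 := fix_iter_Main h j
    rw [e1, ← Function.iterate_mul] at h1
    exact h1

theorem fixed_pow (h : IsFix (fun i => (N i).flat) F T M m g κ) (hκ : ∀ i, κ.1 i ∈ (N i).U)
    {q : ANO.X r 0} (hq : T q = q) {j : ℕ} (hj : 0 < j) {c : ANO.X r 0}
    (hc : (T ^ j) c = c) : c = q := by
  obtain ⟨g', h'⟩ := h.pow hj
  have hq' : (T ^ j) q = q := by
    rw [ANO2.Dim.pow_apply]
    exact Function.iterate_fixed hq j
  exact (existsUnique h' hκ).unique hc hq'

/-- A bounded orbit of the type of the regular point is the fixed point. -/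
theorem eq_of_bdd_orbit (h : IsFix (fun i => (N i).flat) F T M m g κ)
    (hκ : ∀ i, κ.1 i ∈ (N i).U) {q : ANO.X r 0} (hq : T q = q) {K : Set (ANO.X r 0)}
    (hK : IsCompact K) {x : ANO.X r 0} (hx : ∀ i : ℤ, (T ^ i) x ∈ K) : x = q :=
  eq_of_bdd (ANO2.Dim.liftOf_exp h.lift h.M_pos h.liftOf)
    (ANO2.Dim.liftOf_sh h.lift h.M_pos h.liftOf) (ANO2.Dim.liftOf_uc h.lift h.liftOf).1
    (fun _ hj _ hc => fixed_pow h hκ hq hj hc) hK hx

end Pool.Agent.ANO3.Cnt
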