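import Pool.Agent.ANO.Dyn.Defs
import Pool.Agent.ANO2.EqIdx.Defs

/-!
# ANO3, module Cnt: groups of isometries normalized by a homeomorphism (package CNT-NORM)

Section 4 of `/team-store/ANO3_Blueprint.md`, abstract part.  `D` is a group of permutations of the
metric space `X` which are isometries, `T : X ≃ₜ X` normalizes `D` (`Norm D T`).  `Per D T` is the
set of the points `x` with `a ((T ^ m) x) = x` for some `m > 0`, `a ∈ D`.

PROOFS.  `Norm.zpow`: induction (`Int.induction_on` or cases; `T ^ (i + 1) = T * T ^ i` as maps,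
see `Pool.Agent.ANO2.Dim.smul_zpow` for the commuting case).
`Norm.symm`: exchange `fwd` and `bwd` (`T.symm.symm = T`).
`per_smul`: `a ((T ^ m) x) = x`; `(T ^ m) (b x) = b' ((T ^ m) x)`, so
`(b * a * b'⁻¹) ((T ^ m) (b x))
= b x`.
`per_zpow`: `(T ^ m) ((T ^ i) x) = (T ^ i) ((T ^ m) x) = (T ^ i) (a⁻¹ x) = b ((T ^ i) x)`, with
`b ∈ D` from `Norm.zpow` for `a⁻¹`; so `b⁻¹ ((T ^ m) ((T ^ i) x)) = (T ^ i) x`.
`per_symm`: `a ((T ^ m) x) = x` gives `(T ^ m) x = a⁻¹ x`, `x = (T ^ (-m)) (a⁻¹ x) =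
b ((T ^ (-m)) x)`, `b ∈ D` from `Norm.zpow`; so `b ((T.symm ^ m) x) = x`.  The other inclusion by
symmetry (`T.symm.symm = T`, `Norm.symm`).
`expansive_symm`, `shadowing_symm`: `(T.symm ^ j) = T ^ (-j)` for `j : ℤ` (`T.symm = T⁻¹`,
`inv_zpow'`); reverse the pseudo-orbits: if `dist (T.symm (x j)) (x (j + 1)) ≤ δ'` then
`y j = x (-j)` has `dist (T (y j)) (y (j + 1)) = dist (T (x (-j))) (x (-j-1))`, where
`dist (T.symm (x (-j-1))) (x (-j)) ≤ δ'`, so it is `≤ δ` when `δ'` comes from the uniform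
continuity of `T`.
-/

set_option autoImplicit false

open Set Filter Topology

namespace Pool.Agent.ANO3.Cnt

open Pool.Agent.ANO.Dyn

variable {X : Type} [MetricSpace X]

/-- `D` is a group of isometries, normalized by the homeomorphism `T`. -/
structure Norm (D : Subgroup (Equiv.Perm X)) (T : X ≃ₜ X) : Prop where
  iso : ∀ a ∈ D, ∀ x y, dist (a x) (a y) = dist x y
  fwd : ∀ a ∈ D, ∃ a' ∈ D, ∀ x, T (a x) = a' (T x)
  bwd : ∀ a ∈ D, ∃ a' ∈ D, ∀ x, T.symm (a x) = a' (T.symm x)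

/-- The points which are periodic for `T` modulo `D`. -/
def Per (D : Subgroup (Equiv.Perm X)) (T : X ≃ₜ X) : Set X :=
  {x | ∃ m : ℕ, 0 < m ∧ ∃ a ∈ D, a ((T ^ m) x) = x}

variable {D : Subgroup (Equiv.Perm X)} {T : X ≃ₜ X}

private theorem npow_Norm {D : Subgroup (Equiv.Perm X)} {T : X ≃ₜ X}
    (h : ∀ a ∈ D, ∃ a' ∈ D, ∀ x, T (a x) = a' (T x)) (n : ℕ) :
    ∀ a ∈ D, ∃ a' ∈ D, ∀ x, (T ^ n) (a x) = a' ((T ^ n) x) := by
  induction n with
  | zero => exact fun a ha => ⟨a, ha, fun x => rfl⟩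
  | succ n ih =>
    intro a ha
    obtain ⟨b, hb, h1⟩ := h a ha
    obtain ⟨c, hc, h2⟩ := ih b hb
    refine ⟨c, hc, fun x => ?_⟩
    rw [pow_succ]
    show (T ^ n) (T (a x)) = c ((T ^ n) (T x))
    rw [h1, h2]

private theorem symm_npow_Norm (T : X ≃ₜ X) (n : ℕ) (x : X) : (T.symm ^ n) ((T ^ n) x) = x := by
  have h1 : T.symm ^ n = (T ^ n)⁻¹ := inv_pow T n
  rw [h1]
  exact (T ^ n).symm_apply_apply x

private theorem symm_sub_Norm {D : Subgroup (Equiv.Perm X)} {T : X ≃ₜ X}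
    (h : ∀ a ∈ D, ∃ a' ∈ D, ∀ x, T.symm (a x) = a' (T.symm x)) {x : X}
    (hx : x ∈ Per D T) : x ∈ Per D T.symm := by
  obtain ⟨m, hm, a, ha, h1⟩ := hx
  obtain ⟨b, hb, h2⟩ := npow_Norm h m a⁻¹ (D.inv_mem ha)
  refine ⟨m, hm, b, hb, ?_⟩
  rw [← h2]
  have h3 : a⁻¹ x = (T ^ m) x := by
    rw [Equiv.Perm.inv_eq_iff_eq]
    exact h1.symm
  rw [h3]
  exact symm_npow_Norm T m x

theorem Norm.zpow (h : Norm D T) (i : ℤ) :
    ∀ a ∈ D, ∃ a' ∈ D, ∀ x, (T ^ i) (a x) = a' ((T ^ i) x) := by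
  cases i with
  | ofNat n =>
    have h1 : T ^ (Int.ofNat n) = T ^ n := zpow_natCast T n
    rw [h1]
    exact npow_Norm h.fwd n
  | negSucc n =>
    have h1 : T ^ (Int.negSucc n) = T.symm ^ (n + 1) := by
      rw [zpow_negSucc]
      exact (inv_pow T (n + 1)).symm
    rw [h1]
    exact npow_Norm h.bwd (n + 1)

theorem Norm.symm (h : Norm D T) : Norm D T.symm := by
  exact ⟨h.iso, h.bwd, h.fwd⟩

theorem per_smul (h : Norm D T) {x : X} (hx : x ∈ Per D T) {a : Equiv.Perm X} (ha : a ∈ D) :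
    a x ∈ Per D T := by
  obtain ⟨m, hm, b, hb, h1⟩ := hx
  obtain ⟨c, hc, h2⟩ := npow_Norm h.fwd m a ha
  refine ⟨m, hm, a * b * c⁻¹, D.mul_mem (D.mul_mem ha hb) (D.inv_mem hc), ?_⟩
  have h3 : c⁻¹ (c ((T ^ m) x)) = (T ^ m) x := c.symm_apply_apply _
  rw [h2, Equiv.Perm.mul_apply, Equiv.Perm.mul_apply, h3, h1]

theorem per_zpow (h : Norm D T) {x : X} (hx : x ∈ Per D T) (i : ℤ) : (T ^ i) x ∈ Per D T := by
  obtain ⟨m, hm, a, ha, h1⟩ := hx
  obtain ⟨b, hb, h2⟩ := h.zpow i a⁻¹ (D.inv_mem ha)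
  refine ⟨m, hm, b⁻¹, D.inv_mem hb, ?_⟩
  have h3 : (T ^ m) ((T ^ i) x) = (T ^ i) ((T ^ m) x) := by
    have h4 : T ^ m * T ^ i = T ^ i * T ^ m := by
      rw [← zpow_natCast T m, ← zpow_add, ← zpow_add, add_comm]
    have h5 := congrArg (fun S : X ≃ₜ X => S x) h4
    exact h5
  have h4 : a⁻¹ x = (T ^ m) x := by
    rw [Equiv.Perm.inv_eq_iff_eq]
    exact h1.symm
  rw [h3, ← h4, h2]
  exact b.symm_apply_apply _

theorem per_symm (h : Norm D T) : Per D T.symm = Per D T := by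
  ext x
  exact ⟨fun hx => symm_sub_Norm (T := T.symm) h.fwd hx, fun hx => symm_sub_Norm h.bwd hx⟩

theorem zpow_symm (i : ℤ) (x : X) : (T.symm ^ i) x = (T ^ (-i)) x := by
  have h1 : T.symm ^ i = T ^ (-i) := inv_zpow' T i
  rw [h1]

theorem expansive_symm (he : Expansive T) : Expansive T.symm := by
  obtain ⟨e, he0, h⟩ := he
  refine ⟨e, he0, fun x y hxy => h x y fun j => ?_⟩
  have h1 := hxy (-j)
  rw [zpow_symm, zpow_symm, neg_neg] at h1
  exact h1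

theorem shadowing_symm (hu : UniformContinuous T) (hs : Shadowing T) : Shadowing T.symm := by
  intro ε hε
  obtain ⟨δ, hδ, h⟩ := hs ε hε
  obtain ⟨δ', hδ', h'⟩ := Metric.uniformContinuous_iff.1 hu δ hδ
  refine ⟨δ' / 2, by linarith, fun x hx => ?_⟩
  obtain ⟨y, hy⟩ := h (fun j => x (-j)) (fun j => by
    have h1 := hx (-(j + 1))
    have h2 : -(j + 1) + 1 = -j := by ring
    rw [h2] at h1
    have h3 := h' (a := T.symm (x (-(j + 1)))) (b := x (-j)) (by linarith)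
    rw [T.apply_symm_apply, dist_comm] at h3
    exact h3.le)
  refine ⟨y, fun j => ?_⟩
  have h1 := hy (-j)
  rw [zpow_symm]
  simpa only [neg_neg] using h1

end Pool.Agent.ANO3.Cnt
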