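import Pool.Agent.ANO3.Cnt.Norm
import Pool.Agent.ANO3.Grp.Orbits
import Pool.Agent.ANO3.Surf.Reg
import Pool.Agent.ANO2.Dim.Lift

/-!
# ANO3, module Cnt: the group of a type (package CNT-TYP)

`EqvX N p q`: the components of `p` and `q` are not separated by the trees.  For a point `κ` (a
type: the component `κ_i` is a regular periodic point or a point which is not in `U_i`)
`TypeGrp N κ` is the group of the deck transformations `a` with `a κ ~ κ`.  `IsFix N F T M m g κ`: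
`T = g ∘ F ^ M` is a lift of the Anosov map, `g ∘ (prodMap S)^[m]` is the corresponding lift of the
model, which maps `κ` to itself (up to `EqvX`).

PROOFS.  An element `a` of `Deck (surf S) 0` acts on the component `i` by an element `γ_i` of
`(S i).Γ` (`IsDeck`).
`EqvX.refl`, `EqvX.symm`, `EqvX.trans`: `IsDual.self`, `symm`, `triangle` and
`Flat.du_nonneg`, `Flat.ds_nonneg`.
`eqvX_smul`: `Flat.du_smul`, `Flat.ds_smul`.
`eqvX_iter`: `((prodMap S)^[m] p).1 i = (S i).f^[m] (p.1 i)` (`prodMap_iter`), and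
`Flat.du_lift_zero`, `Flat.ds_lift_zero` for the lift `(S i).f^[m]` (`exists_liftPow` with
`γ = 1`).
`TypeGrp`: closed under products: `a b κ ~ a κ ~ κ`; inverses: `a κ ~ κ` gives `κ ~ a⁻¹ κ`
(apply `a⁻¹ ∈ Deck`).
`IsFix.fwd`: let `a ∈ TypeGrp`.  `Grp.normal_of_homotopic h.hom` gives `a₁ ∈ Deck` with
`(prodMap S)^[m] (a p) = a₁ ((prodMap S)^[m] p)`; put `a' = g * a₁ * g⁻¹`, so that
`g ((prodMap S)^[m] (a p)) = a' (g ((prodMap S)^[m] p))`.  With `T₀ = g ∘ (prodMap S)^[m]`: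
`a' κ ~ a' (T₀ κ) = T₀ (a κ) ~ T₀ κ ~ κ` (`eqvX_smul`, `eqvX_iter`, `h.fix`).
`IsFix.norm`: `iso`: `Dyn.IsDeck.isometry`.  `fwd`: for `a ∈ TypeGrp` the Homotopic hypothesis gives
one `a₁` for both `(prodMap S)^[m]` and `F ^ M` (a deck transformation with
`(prodMap S)^[m] ∘ a = a₁ ∘ (prodMap S)^[m]` and `F ^ M ∘ a = a₁ ∘ F ^ M`; make it an element of
`Deck` by `Grp.exists_deck`), and `a' = g * a₁ * g⁻¹` is the element of `IsFix.fwd` (equal at one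
point, `Grp.eq_of_apply_eq`, or repeat the computation), so `a' ∈ TypeGrp`, and
`T (a p) = a' (T p)` by `h.eq`.
`bwd`: let `a' ∈ TypeGrp`, `b = g⁻¹ * a' * g ∈ Deck`.  There is `a ∈ Deck` with
`(F ^ M) (a p) = b ((F ^ M) p)` for all `p` (`anosov_conj'` in `Pool/Agent/ANO2/Prod/Setup.lean`,
or `h.lift.2.2.2.1` iterated), so `T (a p) = a' (T p)`, i.e. `T.symm (a' x) = a (T.symm x)`.
By `h.hom` for `a` there is `b₁` with `(prodMap S)^[m] (a p) = b₁ ((prodMap S)^[m] p)` and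
`(F ^ M) (a p) = b₁ ((F ^ M) p)`, so `b₁ = b` (`Grp.eq_of_apply_eq`).  So
`T₀ (a κ) = g (b ((prodMap S)^[m] κ)) = a' (T₀ κ) ~ a' κ ~ κ ~ T₀ κ`, and `a κ ~ κ` by `eqvX_smul`,
`eqvX_iter`.
-/

set_option autoImplicit false

open Set Filter Topology
open scoped UpperHalfPlane MatrixGroups

namespace Pool.Agent.ANO3.Cnt

open Pool.Agent.ANO Pool.Agent.ANO2 Pool.Agent.ANO3.Grp

variable {r : ℕ} {S : Fin r → SurfaceMap}

/-- The components of the two points are not separated by the trees. -/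
def EqvX (N : ∀ i, Flat (S i)) (p q : ANO.X r 0) : Prop := ∀ i, (N i).Eqv (p.1 i) (q.1 i)

theorem EqvX.refl (N : ∀ i, Flat (S i)) (p : ANO.X r 0) : EqvX N p p := fun i =>
  ⟨(N i).isTree_u.self _, (N i).isTree_s.self _⟩

theorem EqvX.symm {N : ∀ i, Flat (S i)} {p q : ANO.X r 0} (h : EqvX N p q) : EqvX N q p := fun i =>
  ⟨((N i).isTree_u.symm _ _).trans (h i).1, ((N i).isTree_s.symm _ _).trans (h i).2⟩

theorem EqvX.trans {N : ∀ i, Flat (S i)} {p q s : ANO.X r 0} (h : EqvX N p q)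
    (h' : EqvX N q s) : EqvX N p s := fun i =>
  ⟨((N i).isTree_u.congr_left (h i).1 _).trans (h' i).1,
    ((N i).isTree_s.congr_left (h i).2 _).trans (h' i).2⟩

theorem eqvX_smul (N : ∀ i, Flat (S i)) {a : Equiv.Perm (ANO.X r 0)}
    (ha : a ∈ Deck (surf S) 0) (p q : ANO.X r 0) : EqvX N (a p) (a q) ↔ EqvX N p q := by
  obtain ⟨γ, v, hγ, h⟩ := ha
  refine forall_congr' fun i => ?_
  have e1 : ∀ x : ANO.X r 0, (a x).1 i = γ i • x.1 i := fun x =>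
    congrFun (congrArg Prod.fst (h x)) i
  rw [e1, e1]
  unfold Flat.Eqv
  rw [Flat.du_smul _ (hγ i), Flat.ds_smul _ (hγ i)]

theorem prodMap_iter (m : ℕ) (p : ANO.X r 0) (i : Fin r) :
    ((prodMap S)^[m] p).1 i = (S i).f^[m] (p.1 i) := by
  induction m generalizing p with
  | zero => rfl
  | succ m ih =>
    rw [Function.iterate_succ_apply, Function.iterate_succ_apply, ih]
    rfl

theorem eqvX_iter (N : ∀ i, Flat (S i)) (m : ℕ) (p q : ANO.X r 0) :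
    EqvX N ((prodMap S)^[m] p) ((prodMap S)^[m] q) ↔ EqvX N p q := by
  refine forall_congr' fun i => ?_
  obtain ⟨H, hH, hHz⟩ := exists_liftPow (S := S i) m (S i).Γ.one_mem
  have e1 : ∀ z : ℍ, (S i).f^[m] z = H z := fun z => by rw [hHz, one_smul]
  rw [prodMap_iter, prodMap_iter, e1, e1]
  unfold Flat.Eqv
  rw [Flat.du_lift_zero _ hH, Flat.ds_lift_zero _ hH]

/-- The group of the deck transformations which preserve the type `κ`. -/
def TypeGrp (N : ∀ i, Flat (S i)) (κ : ANO.X r 0) : Subgroup (Equiv.Perm (ANO.X r 0)) where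
  carrier := {a | a ∈ Deck (surf S) 0 ∧ EqvX N (a κ) κ}
  mul_mem' := by
    rintro a b ⟨ha, ha'⟩ ⟨hb, hb'⟩
    exact ⟨mul_mem ha hb, ((eqvX_smul N ha _ _).2 hb').trans ha'⟩
  one_mem' := ⟨one_mem _, EqvX.refl N κ⟩
  inv_mem' := by
    rintro a ⟨ha, ha'⟩
    refine ⟨inv_mem ha, ?_⟩
    have h1 := (eqvX_smul N (inv_mem ha) _ _).2 ha'
    have h2 : (a⁻¹ : Equiv.Perm (ANO.X r 0)) (a κ) = κ := a.symm_apply_apply κ
    rw [h2] at h1
    exact h1.symm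

theorem typeGrp_le (N : ∀ i, Flat (S i)) (κ : ANO.X r 0) :
    TypeGrp N κ ≤ Deck (surf S) 0 := fun _ ha => ha.1

theorem mem_typeGrp {N : ∀ i, Flat (S i)} {κ : ANO.X r 0} {a : Equiv.Perm (ANO.X r 0)} :
    a ∈ TypeGrp N κ ↔ a ∈ Deck (surf S) 0 ∧ EqvX N (a κ) κ := Iff.rfl

/-- `T = g ∘ F ^ M`, and the lift `g ∘ (prodMap S)^[m]` of the model fixes the type `κ`. -/
structure IsFix (N : ∀ i, Flat (S i)) (F T : ANO.X r 0 ≃ₜ ANO.X r 0) (M m : ℕ)
    (g : Equiv.Perm (ANO.X r 0)) (κ : ANO.X r 0) : Prop where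
  lift : IsAnosovLift (surf S) F
  M_pos : 0 < M
  m_pos : 0 < m
  deck : g ∈ Deck (surf S) 0
  hom : Homotopic (surf S) (prodMap S)^[m] (F ^ M : ANO.X r 0 ≃ₜ ANO.X r 0)
  eq : ∀ p, T p = g ((F ^ M) p)
  fix : EqvX N (g ((prodMap S)^[m] κ)) κ

private theorem surj_Typ (m : ℕ) : Function.Surjective (prodMap S)^[m] := by
  refine Function.Surjective.iterate (fun p => ?_) m
  refine ⟨(fun i => (S i).f.symm (p.1 i), p.2), Prod.ext (funext fun i => ?_) rfl⟩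
  exact (S i).f.apply_symm_apply _

variable {N : ∀ i, Flat (S i)} {F T : ANO.X r 0 ≃ₜ ANO.X r 0} {M m : ℕ}
  {g : Equiv.Perm (ANO.X r 0)} {κ : ANO.X r 0}

theorem IsFix.liftOf (h : IsFix N F T M m g κ) : ANO2.Dim.LiftOf (surf S) F M T :=
  ⟨g, h.deck, h.eq⟩

private theorem conj_mem_Typ (h : IsFix N F T M m g κ) {a a₁ : Equiv.Perm (ANO.X r 0)}
    (ha : a ∈ TypeGrp N κ) (h1 : ∀ p, (prodMap S)^[m] (a p) = a₁ ((prodMap S)^[m] p)) :
    EqvX N ((g * a₁ * g⁻¹ : Equiv.Perm (ANO.X r 0)) κ) κ := by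
  have h2 : EqvX N (g ((prodMap S)^[m] (a κ))) (g ((prodMap S)^[m] κ)) :=
    (eqvX_smul N h.deck _ _).2 ((eqvX_iter N m _ _).2 ha.2)
  have h3 : EqvX N ((g⁻¹ : Equiv.Perm (ANO.X r 0)) κ) ((prodMap S)^[m] κ) := by
    rw [← eqvX_smul N h.deck]
    have h4 : g ((g⁻¹ : Equiv.Perm (ANO.X r 0)) κ) = κ := g.apply_symm_apply κ
    rw [h4]
    exact h.fix.symm
  have ha₁ : a₁ ∈ Deck (surf S) 0 := by
    obtain ⟨a₂, ha₂, h5⟩ := (normal_of_homotopic h.hom).1 a ha.1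
    have h8 : ∀ q, a₁ q = a₂ q := by
      intro q
      obtain ⟨p, rfl⟩ := surj_Typ (S := S) m q
      rw [← h1, h5]
    have h9 : a₁ = a₂ := Equiv.ext h8
    rw [h9]
    exact ha₂
  have h4 : EqvX N (a₁ ((g⁻¹ : Equiv.Perm (ANO.X r 0)) κ)) (a₁ ((prodMap S)^[m] κ)) :=
    (eqvX_smul N ha₁ _ _).2 h3
  have h5 : EqvX N (g (a₁ ((g⁻¹ : Equiv.Perm (ANO.X r 0)) κ))) (g (a₁ ((prodMap S)^[m] κ))) :=
    (eqvX_smul N h.deck _ _).2 h4
  rw [← h1] at h5
  exact (h5.trans h2).trans h.fix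

theorem IsFix.fwd (h : IsFix N F T M m g κ) : ∀ a ∈ TypeGrp N κ, ∃ a' ∈ TypeGrp N κ,
    ∀ p, g ((prodMap S)^[m] (a p)) = a' (g ((prodMap S)^[m] p)) := by
  intro a ha
  obtain ⟨a₁, ha₁, h1⟩ := (normal_of_homotopic h.hom).1 a ha.1
  refine ⟨g * a₁ * g⁻¹, ⟨mul_mem (mul_mem h.deck ha₁) (inv_mem h.deck), ?_⟩, fun p => ?_⟩
  · exact conj_mem_Typ h ha h1
  · have h2 : (g⁻¹ : Equiv.Perm (ANO.X r 0)) (g ((prodMap S)^[m] p)) = (prodMap S)^[m] p :=
      g.symm_apply_apply _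
    rw [Equiv.Perm.mul_apply, Equiv.Perm.mul_apply, h2, h1]

theorem IsFix.norm (h : IsFix N F T M m g κ) : Norm (TypeGrp N κ) T := by
  refine ⟨fun a ha x y => (ANO2.Dyn.IsDeck.isometry ha.1).dist_eq x y, fun a ha => ?_,
    fun a' ha' => ?_⟩
  · obtain ⟨b, hb, h1, h2⟩ := h.hom a ha.1
    obtain ⟨a₁, ha₁, he⟩ := exists_deck hb
    have h3 : ∀ p, (prodMap S)^[m] (a p) = a₁ ((prodMap S)^[m] p) := fun p =>
      (congrFun h1 p).trans (he _).symm
    have h4 : ∀ p, (F ^ M) (a p) = a₁ ((F ^ M) p) := fun p => (congrFun h2 p).trans (he _).symm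
    refine ⟨g * a₁ * g⁻¹, ⟨mul_mem (mul_mem h.deck ha₁) (inv_mem h.deck),
      conj_mem_Typ h ha h3⟩, fun p => ?_⟩
    have h5 : (g⁻¹ : Equiv.Perm (ANO.X r 0)) (g ((F ^ M) p)) = (F ^ M) p :=
      g.symm_apply_apply _
    rw [h.eq, h.eq, Equiv.Perm.mul_apply, Equiv.Perm.mul_apply, h5, h4]
  · obtain ⟨b, hb⟩ : ∃ b : Equiv.Perm (ANO.X r 0), b = g⁻¹ * a' * g := ⟨_, rfl⟩
    have hbD : b ∈ Deck (surf S) 0 := by
      rw [hb]
      exact mul_mem (mul_mem (inv_mem h.deck) ha'.1) h.deck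
    have hgb : ∀ q, g (b q) = a' (g q) := by
      intro q
      rw [hb, Equiv.Perm.mul_apply, Equiv.Perm.mul_apply]
      exact g.apply_symm_apply _
    obtain ⟨c, hc, h1⟩ := anosov_conj' h.lift M (g' := b) hbD
    obtain ⟨a, ha, he⟩ := exists_deck hc
    have h2 : ∀ p, (F ^ M) (a p) = b ((F ^ M) p) := fun p => by
      rw [he]
      exact congrFun h1 p
    obtain ⟨d, hd, h3, h4⟩ := h.hom a ha
    have h5 : ∀ q, d q = b q := by
      intro q
      obtain ⟨p, rfl⟩ := (F ^ M).surjective q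
      rw [← h2]
      exact (congrFun h4 p).symm
    have h6 : ∀ p, (prodMap S)^[m] (a p) = b ((prodMap S)^[m] p) := fun p =>
      (congrFun h3 p).trans (h5 _)
    refine ⟨a, ⟨ha, ?_⟩, fun x => ?_⟩
    · rw [← eqvX_iter N m, ← eqvX_smul N h.deck, h6, hgb]
      exact (((eqvX_smul N ha'.1 _ _).2 h.fix).trans ha'.2).trans h.fix.symm
    · rw [Homeomorph.symm_apply_eq, h.eq, h2, hgb, ← h.eq, T.apply_symm_apply]

end Pool.Agent.ANO3.Cnt
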